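import Mathlib
import Pool.Agent.Helper75.IP.Defs
import Pool.Agent.Helper17.TranslM

/-!
# Limit kernels: uniqueness and convolution
-/

set_option autoImplicit false
open MeasureTheory Filter Topology ProbabilityTheory Helper35.AG Helper75.IP
open scoped ENNReal ComplexConjugate

namespace Helper25.IP

variable {U : Ultrafilter ℕ}

/-- Fourier coefficients of a kernel -/
noncomputable def fc (κ : Kernel Tor Tor) (j : ℤ) (w : Tor) : ℂ := ∫ y, (fourier j y : ℂ) ∂(κ w)

lemma norm_fourier (j : ℤ) (x : Tor) : ‖(fourier j x : ℂ)‖ = 1 := by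
  rw [fourier_apply]
  exact Circle.norm_coe _

lemma measurable_fc (κ : Kernel Tor Tor) [IsMarkovKernel κ] (j : ℤ) : Measurable (fc κ j) :=
  (StronglyMeasurable.integral_kernel (κ := κ)
    (fourier j).continuous.measurable.stronglyMeasurable).measurable

lemma norm_fc_le (κ : Kernel Tor Tor) [IsMarkovKernel κ] (j : ℤ) (w : Tor) : ‖fc κ j w‖ ≤ 1 := by
  refine (norm_integral_le_of_norm_le_const (C := 1) (Eventually.of_forall fun y => ?_)).trans ?_
  · exact (norm_fourier j y).le
  · simp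

lemma integrable_of_le_one {X : Type*} [MeasurableSpace X] {μ : Measure X} [IsFiniteMeasure μ]
    {f : X → ℂ} (hf : AEStronglyMeasurable f μ) (h : ∀ x, ‖f x‖ ≤ 1) : Integrable f μ :=
  Integrable.of_bound hf 1 (Eventually.of_forall h)

lemma ac_of_le {α ρ : Measure Tor} {c : ℝ≥0∞} (h : ρ ≤ c • α) : ρ ≪ α := by
  intro s hs
  have h1 := h s
  rw [Measure.smul_apply, hs, smul_zero] at h1
  exact le_antisymm h1 zero_le

/-- a limit kernel is a limit kernel for dominated measures -/
theorem of_le {α ρ : Measure Tor} [IsProbabilityMeasure α] [IsProbabilityMeasure ρ]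
    {κ : Kernel Tor Tor} (h : IsLim U α κ) {c : ℝ≥0∞} (h1 : ρ ≤ c • α) : IsLim U ρ κ := by
  have hac := ac_of_le h1
  have hL : ρ.HaveLebesgueDecomposition α :=
    Measure.haveLebesgueDecomposition_of_sigmaFinite ρ α
  intro j a ha
  have hg : Integrable (fun x => (ρ.rnDeriv α x).toReal • a x) α :=
    (integrable_rnDeriv_smul_iff hac).2 ha
  have h2 := h j _ hg
  have e1 : ∀ f : Tor → ℂ, ∫ w, (ρ.rnDeriv α w).toReal • a w * f w ∂α = ∫ w, a w * f w ∂ρ := by
    intro f
    rw [← integral_rnDeriv_smul hac]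
    refine integral_congr_ae (Eventually.of_forall fun w => ?_)
    simp only [smul_mul_assoc]
  rw [e1] at h2
  refine h2.congr fun k => ?_
  exact e1 _

/-- **uniqueness for one measure** -/
theorem fc_eq {ρ : Measure Tor} [IsProbabilityMeasure ρ] {κ κ' : Kernel Tor Tor}
    [IsMarkovKernel κ] [IsMarkovKernel κ'] (h : IsLim U ρ κ) (h' : IsLim U ρ κ') (j : ℤ) :
    ∀ᵐ w ∂ρ, fc κ j w = fc κ' j w := by
  have hm : Measurable fun w => fc κ j w - fc κ' j w := (measurable_fc κ j).sub (measurable_fc κ' j)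
  have hi : ∀ f : Tor → ℂ, Measurable f → (∀ x, ‖f x‖ ≤ 1) → Integrable f ρ :=
    fun f hf hb => integrable_of_le_one hf.aestronglyMeasurable hb
  have hiκ := hi _ (measurable_fc κ j) (norm_fc_le κ j)
  have hiκ' := hi _ (measurable_fc κ' j) (norm_fc_le κ' j)
  have ha : Integrable (fun w => conj (fc κ j w - fc κ' j w)) ρ := by
    refine (Integrable.of_bound (C := 2)
      (Complex.continuous_conj.measurable.comp hm).aestronglyMeasurable
      (Eventually.of_forall fun w => ?_))
    simp only [RCLike.norm_conj]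
    exact (norm_sub_le _ _).trans (by linarith [norm_fc_le κ j w, norm_fc_le κ' j w])
  have h1 := tendsto_nhds_unique (h j _ ha) (h' j _ ha)
  change ∫ w, conj (fc κ j w - fc κ' j w) * fc κ j w ∂ρ =
    ∫ w, conj (fc κ j w - fc κ' j w) * fc κ' j w ∂ρ at h1
  have hb : ∀ κ'' : Kernel Tor Tor, IsMarkovKernel κ'' →
      Integrable (fun w => conj (fc κ j w - fc κ' j w) * fc κ'' j w) ρ := by
    intro κ'' _
    exact ha.mul_bdd (c := 1) (measurable_fc κ'' j).aestronglyMeasurable
      (Eventually.of_forall fun w => norm_fc_le κ'' j w)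
  have h2 : ∫ w, ‖fc κ j w - fc κ' j w‖ ^ 2 ∂ρ = 0 := by
    have e : ∫ w, ((‖fc κ j w - fc κ' j w‖ ^ 2 : ℝ) : ℂ) ∂ρ = 0 := by
      have e1 : ∀ w, ((‖fc κ j w - fc κ' j w‖ ^ 2 : ℝ) : ℂ) =
          conj (fc κ j w - fc κ' j w) * fc κ j w - conj (fc κ j w - fc κ' j w) * fc κ' j w := by
        intro w
        rw [← mul_sub, mul_comm, Complex.mul_conj, Complex.normSq_eq_norm_sq]
      simp only [e1]
      rw [integral_sub (hb κ inferInstance) (hb κ' inferInstance), h1, sub_self]
    rw [integral_complex_ofReal] at e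
    exact_mod_cast e
  have h3 : Integrable (fun w => ‖fc κ j w - fc κ' j w‖ ^ 2) ρ := by
    refine Integrable.of_bound (C := 4) (hm.norm.pow_const 2).aestronglyMeasurable
      (Eventually.of_forall fun w => ?_)
    have h4 : ‖fc κ j w - fc κ' j w‖ ≤ 2 :=
      (norm_sub_le _ _).trans (by linarith [norm_fc_le κ j w, norm_fc_le κ' j w])
    rw [Real.norm_of_nonneg (by positivity)]
    nlinarith [norm_nonneg (fc κ j w - fc κ' j w)]
  have h4 := (integral_eq_zero_iff_of_nonneg (fun w => by positivity) h3).1 h2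
  filter_upwards [h4] with w hw
  have h5 : ‖fc κ j w - fc κ' j w‖ ^ 2 = 0 := hw
  exact sub_eq_zero.1 (norm_eq_zero.1 (pow_eq_zero_iff (two_ne_zero) |>.1 h5))

/-- **K2** -/
theorem lim_unique {α α' ρ : Measure Tor} [IsProbabilityMeasure α] [IsProbabilityMeasure α']
    [IsProbabilityMeasure ρ] {κ κ' : Kernel Tor Tor} [IsMarkovKernel κ] [IsMarkovKernel κ']
    (h : IsLim U α κ) (h' : IsLim U α' κ') {c : ℝ≥0∞} (hc : c ≠ ⊤) (h1 : ρ ≤ c • α)
    (h2 : ρ ≤ c • α') : ∀ᵐ w ∂ρ, κ w = κ' w := by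
  have h3 : ∀ᵐ w ∂ρ, ∀ j : ℤ, fc κ j w = fc κ' j w :=
    ae_all_iff.2 fun j => fc_eq (of_le h h1) (of_le h' h2) j
  filter_upwards [h3] with w hw
  exact Helper17.TranslM.eq_of_fourier hw

end Helper25.IP
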