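import Mathlib
import Pool.Agent.Helper25.IP.Ker

/-!
# The limit kernel of a convolution
-/

set_option autoImplicit false
open MeasureTheory Filter Topology ProbabilityTheory Helper35.AG Helper75.IP
open scoped ENNReal ComplexConjugate

namespace Helper25.IP

variable {U : Ultrafilter ℕ}

lemma fourier_add_arg (j : ℤ) (x y : Tor) :
    (fourier j (x + y) : ℂ) = fourier j x * fourier j y := by
  rw [fourier_apply, fourier_apply, fourier_apply, smul_add, AddCircle.toCircle_add, Circle.coe_mul]

lemma fourier_nsmul_arg (j : ℤ) (n : ℕ) (x : Tor) :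
    (fourier j (n • x) : ℂ) = fourier (j * n) x := by
  rw [fourier_apply, fourier_apply, mul_zsmul, natCast_zsmul]

lemma conj_fourier (j : ℤ) (x : Tor) : conj (fourier j x : ℂ) = fourier (-j) x := by
  rw [fourier_neg]

lemma measurable_fourier (j : ℤ) : Measurable fun x : Tor => (fourier j x : ℂ) :=
  (fourier j).continuous.measurable

lemma integral_conv {β γ : Measure Tor} {f : Tor → ℂ} (hf : AEStronglyMeasurable f (conv β γ)) :
    ∫ w, f w ∂(conv β γ) = ∫ p : Tor × Tor, f (p.1 + p.2) ∂(β.prod γ) := by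
  unfold conv at hf ⊢
  exact integral_map (by fun_prop) hf

lemma integrable_bd {X : Type*} [MeasurableSpace X] {μ : Measure X} [IsFiniteMeasure μ]
    {f : X → ℂ} (hf : Measurable f) {C : ℝ} (h : ∀ x, ‖f x‖ ≤ C) : Integrable f μ :=
  Integrable.of_bound hf.aestronglyMeasurable C (Eventually.of_forall h)

section
variable {β γ : Measure Tor} [IsProbabilityMeasure β] [IsProbabilityMeasure γ]
  {κ κ' κ'' : Kernel Tor Tor} [IsMarkovKernel κ] [IsMarkovKernel κ'] [IsMarkovKernel κ'']

/-- characters as test functions -/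
lemma key_char (h : IsLim U β κ) (h' : IsLim U γ κ') (h'' : IsLim U (conv β γ) κ'') (j m : ℤ) :
    (∫ x, (fourier m x : ℂ) * fc κ j x ∂β) * (∫ y, (fourier m y : ℂ) * fc κ' j y ∂γ) =
      ∫ w, (fourier m w : ℂ) * fc κ'' j w ∂(conv β γ) := by
  have hi : ∀ ρ : Measure Tor, IsProbabilityMeasure ρ → Integrable (fun w : Tor => (fourier m w : ℂ)) ρ :=
    fun ρ _ => integrable_bd (measurable_fourier m) (C := 1) fun x => (norm_fourier m x).le
  have t1 := h j _ (hi β inferInstance)
  have t2 := h' j _ (hi γ inferInstance)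
  have t3 := h'' j _ (hi (conv β γ) inferInstance)
  have t4 := t1.mul t2
  refine tendsto_nhds_unique t4 (t3.congr fun k => ?_)
  have hm : Measurable fun w : Tor => (fourier m w : ℂ) * fourier j ((2 ^ k : ℕ) • w) := by
    have h2 : Measurable fun w : Tor => (2 ^ k : ℕ) • w := (continuous_nsmul _).measurable
    exact (measurable_fourier m).mul ((measurable_fourier j).comp h2)
  rw [integral_conv hm.aestronglyMeasurable, ← integral_prod_mul]
  refine integral_congr_ae (Eventually.of_forall fun p => ?_)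
  simp only
  rw [fourier_add_arg, smul_add, fourier_add_arg]
  ring

/-- the two functionals -/
lemma key_cont (h : IsLim U β κ) (h' : IsLim U γ κ') (h'' : IsLim U (conv β γ) κ'') (j : ℤ)
    (f : C(Tor, ℂ)) :
    ∫ p : Tor × Tor, f (p.1 + p.2) * (fc κ j p.1 * fc κ' j p.2) ∂(β.prod γ) =
      ∫ w, f w * fc κ'' j w ∂(conv β γ) := by
  have hF : Measurable fun p : Tor × Tor => fc κ j p.1 * fc κ' j p.2 :=
    ((measurable_fc κ j).comp measurable_fst).mul ((measurable_fc κ' j).comp measurable_snd)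
  have hFb : ∀ p : Tor × Tor, ‖fc κ j p.1 * fc κ' j p.2‖ ≤ 1 := by
    intro p
    rw [norm_mul]
    have h1 := norm_fc_le κ j p.1
    have h2 := norm_fc_le κ' j p.2
    have h3 := norm_nonneg (fc κ' j p.2)
    nlinarith [norm_nonneg (fc κ j p.1)]
  have hadd : Measurable fun p : Tor × Tor => p.1 + p.2 := by fun_prop
  have hi1 : ∀ g : C(Tor, ℂ), Integrable
      (fun p : Tor × Tor => g (p.1 + p.2) * (fc κ j p.1 * fc κ' j p.2)) (β.prod γ) := by
    intro g
    refine integrable_bd ((g.continuous.measurable.comp hadd).mul hF) (C := ‖g‖) fun p => ?_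
    rw [norm_mul]
    have h1 := g.norm_coe_le_norm (p.1 + p.2)
    have h2 := hFb p
    have h3 := norm_nonneg (g (p.1 + p.2))
    nlinarith [norm_nonneg (fc κ j p.1 * fc κ' j p.2), norm_nonneg g]
  have hi2 : ∀ g : C(Tor, ℂ), Integrable (fun w => g w * fc κ'' j w) (conv β γ) := by
    intro g
    refine integrable_bd (g.continuous.measurable.mul (measurable_fc κ'' j)) (C := ‖g‖) fun p => ?_
    rw [norm_mul]
    have h1 := g.norm_coe_le_norm p
    have h2 := norm_fc_le κ'' j p
    have h3 := norm_nonneg (g p)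
    nlinarith [norm_nonneg (fc κ'' j p), norm_nonneg g]
  let L1 : C(Tor, ℂ) →ₗ[ℂ] ℂ :=
    { toFun := fun g => ∫ p : Tor × Tor, g (p.1 + p.2) * (fc κ j p.1 * fc κ' j p.2) ∂(β.prod γ)
      map_add' := by
        intro g g'
        rw [← integral_add (hi1 g) (hi1 g')]
        refine integral_congr_ae (Eventually.of_forall fun p => ?_)
        simp only [ContinuousMap.coe_add, Pi.add_apply]
        ring
      map_smul' := by
        intro a g
        simp only [ContinuousMap.coe_smul, Pi.smul_apply, smul_eq_mul, RingHom.id_apply]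
        rw [← integral_const_mul]
        refine integral_congr_ae (Eventually.of_forall fun p => ?_)
        simp only
        ring }
  let L2 : C(Tor, ℂ) →ₗ[ℂ] ℂ :=
    { toFun := fun g => ∫ w, g w * fc κ'' j w ∂(conv β γ)
      map_add' := by
        intro g g'
        rw [← integral_add (hi2 g) (hi2 g')]
        refine integral_congr_ae (Eventually.of_forall fun p => ?_)
        simp only [ContinuousMap.coe_add, Pi.add_apply]
        ring
      map_smul' := by
        intro a g
        simp only [ContinuousMap.coe_smul, Pi.smul_apply, smul_eq_mul, RingHom.id_apply]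
        rw [← integral_const_mul]
        refine integral_congr_ae (Eventually.of_forall fun p => ?_)
        simp only
        ring }
  have c1 : Continuous L1 := by
    refine (L1.mkContinuous 1 fun g => ?_).continuous
    refine (norm_integral_le_of_norm_le_const (C := ‖g‖) (Eventually.of_forall fun p => ?_)).trans ?_
    · rw [norm_mul]
      have h1 := g.norm_coe_le_norm (p.1 + p.2)
      have h2 := hFb p
      have h3 := norm_nonneg (g (p.1 + p.2))
      nlinarith [norm_nonneg (fc κ j p.1 * fc κ' j p.2), norm_nonneg g]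
    · simp
  have c2 : Continuous L2 := by
    refine (L2.mkContinuous 1 fun g => ?_).continuous
    refine (norm_integral_le_of_norm_le_const (C := ‖g‖) (Eventually.of_forall fun p => ?_)).trans ?_
    · rw [norm_mul]
      have h1 := g.norm_coe_le_norm p
      have h2 := norm_fc_le κ'' j p
      have h3 := norm_nonneg (g p)
      nlinarith [norm_nonneg (fc κ'' j p), norm_nonneg g]
    · simp
  have hS : (⊤ : Submodule ℂ C(Tor, ℂ)) ≤ LinearMap.ker (L1 - L2) := by
    rw [← span_fourier_closure_eq_top (T := 1)]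
    apply Submodule.topologicalClosure_minimal
    · rw [Submodule.span_le]
      rintro _ ⟨m, rfl⟩
      rw [SetLike.mem_coe, LinearMap.mem_ker, LinearMap.sub_apply, sub_eq_zero]
      change ∫ p : Tor × Tor, (fourier m (p.1 + p.2) : ℂ) * (fc κ j p.1 * fc κ' j p.2)
        ∂(β.prod γ) = ∫ w, (fourier m w : ℂ) * fc κ'' j w ∂(conv β γ)
      rw [← key_char h h' h'' j m, ← integral_prod_mul]
      refine integral_congr_ae (Eventually.of_forall fun p => ?_)
      simp only
      rw [fourier_add_arg]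
      ring
    · have : Continuous (L1 - L2) := c1.sub c2
      exact isClosed_singleton.preimage this
  have h1 := hS (Submodule.mem_top (x := f))
  rw [LinearMap.mem_ker, LinearMap.sub_apply, sub_eq_zero] at h1
  exact h1

/-- bounded measurable test functions -/
lemma key_meas (h : IsLim U β κ) (h' : IsLim U γ κ') (h'' : IsLim U (conv β γ) κ'') (j : ℤ)
    {f : Tor → ℂ} (hf : Measurable f) (hfb : ∀ x, ‖f x‖ ≤ 1) :
    ∫ p : Tor × Tor, f (p.1 + p.2) * (fc κ j p.1 * fc κ' j p.2) ∂(β.prod γ) =
      ∫ w, f w * fc κ'' j w ∂(conv β γ) := by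
  have hF : Measurable fun p : Tor × Tor => fc κ j p.1 * fc κ' j p.2 :=
    ((measurable_fc κ j).comp measurable_fst).mul ((measurable_fc κ' j).comp measurable_snd)
  have hFb : ∀ p : Tor × Tor, ‖fc κ j p.1 * fc κ' j p.2‖ ≤ 1 := by
    intro p
    rw [norm_mul]
    have h1 := norm_fc_le κ j p.1
    have h2 := norm_fc_le κ' j p.2
    have h3 := norm_nonneg (fc κ' j p.2)
    nlinarith [norm_nonneg (fc κ j p.1)]
  have hadd : Measurable fun p : Tor × Tor => p.1 + p.2 := by fun_prop
  have hfi : Integrable f (conv β γ) := integrable_bd hf hfb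
  rw [← sub_eq_zero]
  refine norm_le_zero_iff.1 (le_of_forall_pos_le_add fun ε hε => ?_)
  obtain ⟨g, hg, hgi⟩ := hfi.exists_boundedContinuous_integral_sub_le (half_pos hε)
  have hgm : Measurable fun x => g x := g.continuous.measurable
  have hgb : ∀ x, ‖f x - g x‖ ≤ 1 + ‖g‖ := fun x =>
    (norm_sub_le _ _).trans (add_le_add (hfb x) (g.norm_coe_le_norm x))
  have key := key_cont h h' h'' j g.toContinuousMap
  change ∫ p : Tor × Tor, g (p.1 + p.2) * (fc κ j p.1 * fc κ' j p.2) ∂(β.prod γ) =
      ∫ w, g w * fc κ'' j w ∂(conv β γ) at key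
  have bF : ∀ a : ℂ, ∀ p : Tor × Tor, ‖a * (fc κ j p.1 * fc κ' j p.2)‖ ≤ ‖a‖ := by
    intro a p
    rw [norm_mul]
    nlinarith [norm_nonneg a, hFb p]
  have bG : ∀ a : ℂ, ∀ w : Tor, ‖a * fc κ'' j w‖ ≤ ‖a‖ := by
    intro a w
    rw [norm_mul]
    nlinarith [norm_nonneg a, norm_fc_le κ'' j w]
  have e1 : ∫ p : Tor × Tor, f (p.1 + p.2) * (fc κ j p.1 * fc κ' j p.2) ∂(β.prod γ) -
      ∫ p : Tor × Tor, g (p.1 + p.2) * (fc κ j p.1 * fc κ' j p.2) ∂(β.prod γ) =
      ∫ p : Tor × Tor, (f (p.1 + p.2) - g (p.1 + p.2)) * (fc κ j p.1 * fc κ' j p.2)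
        ∂(β.prod γ) := by
    rw [← integral_sub]
    · refine integral_congr_ae (Eventually.of_forall fun p => ?_)
      simp only
      ring
    · exact integrable_bd ((hf.comp hadd).mul hF) (C := 1) fun p => (bF _ p).trans (hfb _)
    · exact integrable_bd ((hgm.comp hadd).mul hF) (C := ‖g‖) fun p =>
        (bF _ p).trans (g.norm_coe_le_norm _)
  have e2 : ∫ w, f w * fc κ'' j w ∂(conv β γ) - ∫ w, g w * fc κ'' j w ∂(conv β γ) =
      ∫ w, (f w - g w) * fc κ'' j w ∂(conv β γ) := by
    rw [← integral_sub]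
    · refine integral_congr_ae (Eventually.of_forall fun p => ?_)
      simp only
      ring
    · exact integrable_bd (hf.mul (measurable_fc κ'' j)) (C := 1) fun p => (bG _ p).trans (hfb _)
    · exact integrable_bd (hgm.mul (measurable_fc κ'' j)) (C := ‖g‖) fun p =>
        (bG _ p).trans (g.norm_coe_le_norm _)
  have e3 : ∫ p : Tor × Tor, ‖f (p.1 + p.2) - g (p.1 + p.2)‖ ∂(β.prod γ) =
      ∫ w, ‖f w - g w‖ ∂(conv β γ) := by
    have hn : AEStronglyMeasurable (fun w => ‖f w - g w‖)
        (Measure.map (fun p : Tor × Tor => p.1 + p.2) (β.prod γ)) :=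
      (hf.sub hgm).norm.aestronglyMeasurable
    exact (integral_map hadd.aemeasurable hn).symm
  have i1 : Integrable (fun p : Tor × Tor => ‖f (p.1 + p.2) - g (p.1 + p.2)‖) (β.prod γ) := by
    refine Integrable.of_bound (C := 1 + ‖g‖)
      (((hf.comp hadd).sub (hgm.comp hadd)).norm).aestronglyMeasurable
      (Eventually.of_forall fun p => ?_)
    rw [norm_norm]
    exact hgb _
  have i2 : Integrable (fun w => ‖f w - g w‖) (conv β γ) := (hfi.sub hgi).norm
  have b1 : ‖∫ p : Tor × Tor, (f (p.1 + p.2) - g (p.1 + p.2)) * (fc κ j p.1 * fc κ' j p.2)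
      ∂(β.prod γ)‖ ≤ ε / 2 := by
    refine (norm_integral_le_of_norm_le i1 (Eventually.of_forall fun p => bF _ p)).trans ?_
    rw [e3]
    exact hg
  have b2 : ‖∫ w, (f w - g w) * fc κ'' j w ∂(conv β γ)‖ ≤ ε / 2 :=
    (norm_integral_le_of_norm_le i2 (Eventually.of_forall fun p => bG _ p)).trans hg
  have e4 : ∫ p : Tor × Tor, f (p.1 + p.2) * (fc κ j p.1 * fc κ' j p.2) ∂(β.prod γ) -
      ∫ w, f w * fc κ'' j w ∂(conv β γ) =
      ∫ p : Tor × Tor, (f (p.1 + p.2) - g (p.1 + p.2)) * (fc κ j p.1 * fc κ' j p.2)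
        ∂(β.prod γ) - ∫ w, (f w - g w) * fc κ'' j w ∂(conv β γ) := by
    rw [← e1, ← e2, key]
    ring
  rw [e4, zero_add]
  refine (norm_sub_le _ _).trans ?_
  linarith

/-- the two norms -/
lemma key_sq (h : IsLim U β κ) (h' : IsLim U γ κ') (h'' : IsLim U (conv β γ) κ'') (j : ℤ) :
    (∫ x, conj (fc κ j x) * fc κ j x ∂β) * (∫ y, conj (fc κ' j y) * fc κ' j y ∂γ) =
      ∫ w, conj (fc κ'' j w) * fc κ'' j w ∂(conv β γ) := by
  have hi : ∀ (ρ : Measure Tor) (κ₁ : Kernel Tor Tor), IsProbabilityMeasure ρ → IsMarkovKernel κ₁ →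
      Integrable (fun w : Tor => conj (fc κ₁ j w)) ρ := by
    intro ρ κ₁ _ _
    refine integrable_bd (Complex.continuous_conj.measurable.comp (measurable_fc κ₁ j)) (C := 1)
      fun x => ?_
    simp only [RCLike.norm_conj]
    exact norm_fc_le κ₁ j x
  have t1 := h j _ (hi β κ inferInstance inferInstance)
  have t2 := h' j _ (hi γ κ' inferInstance inferInstance)
  have t3 := h'' j _ (hi (conv β γ) κ'' inferInstance inferInstance)
  refine tendsto_nhds_unique (t1.mul t2) (t3.congr fun k => ?_)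
  have e : ∀ (ρ : Measure Tor) (κ₁ : Kernel Tor Tor),
      ∫ w, conj (fc κ₁ j w) * (fourier j ((2 ^ k : ℕ) • w) : ℂ) ∂ρ =
        conj (∫ w, (fourier (-(j * (2 ^ k : ℕ))) w : ℂ) * fc κ₁ j w ∂ρ) := by
    intro ρ κ₁
    rw [← integral_conj]
    refine integral_congr_ae (Eventually.of_forall fun w => ?_)
    simp only
    rw [map_mul, conj_fourier, neg_neg, fourier_nsmul_arg, mul_comm]
  rw [e, e, e, ← map_mul, key_char h h' h'' j]

/-- coefficients of the limit kernel of a convolution -/
theorem fc_conv (h : IsLim U β κ) (h' : IsLim U γ κ') (h'' : IsLim U (conv β γ) κ'') (j : ℤ) :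
    ∀ᵐ p ∂(β.prod γ), fc κ'' j (p.1 + p.2) = fc κ j p.1 * fc κ' j p.2 := by
  have hadd : Measurable fun p : Tor × Tor => p.1 + p.2 := by fun_prop
  set F : Tor × Tor → ℂ := fun p => fc κ j p.1 * fc κ' j p.2 with hFd
  set G : Tor × Tor → ℂ := fun p => fc κ'' j (p.1 + p.2) with hGd
  have hF : Measurable F :=
    ((measurable_fc κ j).comp measurable_fst).mul ((measurable_fc κ' j).comp measurable_snd)
  have hG : Measurable G := (measurable_fc κ'' j).comp hadd
  have hFb : ∀ p : Tor × Tor, ‖F p‖ ≤ 1 := by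
    intro p
    simp only [hFd]
    rw [norm_mul]
    have h1 := norm_fc_le κ j p.1
    have h2 := norm_fc_le κ' j p.2
    have h3 := norm_nonneg (fc κ' j p.2)
    nlinarith [norm_nonneg (fc κ j p.1)]
  have hGb : ∀ p : Tor × Tor, ‖G p‖ ≤ 1 := fun p => norm_fc_le κ'' j _
  have hcj : Measurable fun z : ℂ => conj z := Complex.continuous_conj.measurable
  have hprod : ∀ A B : Tor × Tor → ℂ, Measurable A → Measurable B → (∀ p, ‖A p‖ ≤ 1) →
      (∀ p, ‖B p‖ ≤ 1) → Integrable (fun p => conj (A p) * B p) (β.prod γ) := by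
    intro A B hA hB hAb hBb
    refine integrable_bd ((hcj.comp hA).mul hB) (C := 1) fun p => ?_
    rw [norm_mul, RCLike.norm_conj]
    have h1 := hAb p
    have h2 := hBb p
    nlinarith [norm_nonneg (A p), norm_nonneg (B p)]
  set I : ℂ := ∫ w, conj (fc κ'' j w) * fc κ'' j w ∂(conv β γ) with hI
  have hgg : Measurable fun w => conj (fc κ'' j w) * fc κ'' j w :=
    (hcj.comp (measurable_fc κ'' j)).mul (measurable_fc κ'' j)
  have eGG : ∫ p, conj (G p) * G p ∂(β.prod γ) = I := by
    rw [hI, integral_conv hgg.aestronglyMeasurable]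
  have eFF : ∫ p, conj (F p) * F p ∂(β.prod γ) = I := by
    rw [hI, ← key_sq h h' h'' j, ← integral_prod_mul]
    refine integral_congr_ae (Eventually.of_forall fun p => ?_)
    simp only [hFd, map_mul]
    ring
  have eGF : ∫ p, conj (G p) * F p ∂(β.prod γ) = I := by
    have h1 := key_meas h h' h'' j (f := fun w => conj (fc κ'' j w))
      (hcj.comp (measurable_fc κ'' j)) (fun x => by
        rw [RCLike.norm_conj]
        exact norm_fc_le κ'' j x)
    exact h1
  have hIc : conj I = I := by
    rw [hI, ← integral_conj]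
    refine integral_congr_ae (Eventually.of_forall fun w => ?_)
    simp only [map_mul, Complex.conj_conj]
    ring
  have eFG : ∫ p, conj (F p) * G p ∂(β.prod γ) = I := by
    rw [← hIc, ← eGF, ← integral_conj]
    refine integral_congr_ae (Eventually.of_forall fun w => ?_)
    simp only [map_mul, Complex.conj_conj]
    ring
  have h2 : ∫ p, ‖G p - F p‖ ^ 2 ∂(β.prod γ) = 0 := by
    have e : ∫ p, ((‖G p - F p‖ ^ 2 : ℝ) : ℂ) ∂(β.prod γ) = 0 := by
      have e1 : ∀ p, ((‖G p - F p‖ ^ 2 : ℝ) : ℂ) = (conj (G p) * G p - conj (G p) * F p) -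
          (conj (F p) * G p - conj (F p) * F p) := by
        intro p
        have e2 : ((‖G p - F p‖ ^ 2 : ℝ) : ℂ) = (G p - F p) * conj (G p - F p) := by
          rw [Complex.mul_conj, Complex.normSq_eq_norm_sq]
        rw [e2, map_sub]
        ring
      simp only [e1]
      have j1 := hprod G G hG hG hGb hGb
      have j2 := hprod G F hG hF hGb hFb
      have j3 := hprod F G hF hG hFb hGb
      have j4 := hprod F F hF hF hFb hFb
      have j5 : Integrable (fun p => conj (G p) * G p - conj (G p) * F p) (β.prod γ) := j1.sub j2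
      have j6 : Integrable (fun p => conj (F p) * G p - conj (F p) * F p) (β.prod γ) := j3.sub j4
      rw [integral_sub j5 j6, integral_sub j1 j2, integral_sub j3 j4, eGG, eGF, eFG, eFF]
      ring
    rw [integral_complex_ofReal] at e
    exact_mod_cast e
  have h3 : Integrable (fun p => ‖G p - F p‖ ^ 2) (β.prod γ) := by
    refine Integrable.of_bound (C := 4) ((hG.sub hF).norm.pow_const 2).aestronglyMeasurable
      (Eventually.of_forall fun p => ?_)
    have h4 : ‖G p - F p‖ ≤ 2 := (norm_sub_le _ _).trans (by linarith [hGb p, hFb p])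
    rw [Real.norm_of_nonneg (by positivity)]
    nlinarith [norm_nonneg (G p - F p)]
  have h4 := (integral_eq_zero_iff_of_nonneg (fun w => by positivity) h3).1 h2
  filter_upwards [h4] with p hp
  have h5 : ‖G p - F p‖ ^ 2 = 0 := hp
  exact sub_eq_zero.1 (norm_eq_zero.1 (pow_eq_zero_iff (two_ne_zero) |>.1 h5))

end

/-- Fourier coefficients of a convolution -/
lemma fourier_conv (ρ σ : Measure Tor) [IsProbabilityMeasure ρ] [IsProbabilityMeasure σ] (j : ℤ) :
    ∫ x, (fourier j x : ℂ) ∂(conv ρ σ) =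
      (∫ x, (fourier j x : ℂ) ∂ρ) * ∫ x, (fourier j x : ℂ) ∂σ := by
  rw [integral_conv (measurable_fourier j).aestronglyMeasurable, ← integral_prod_mul]
  refine integral_congr_ae (Eventually.of_forall fun p => ?_)
  simp only
  rw [fourier_add_arg]

/-- **K3** -/
theorem lim_conv {β γ : Measure Tor} [IsProbabilityMeasure β] [IsProbabilityMeasure γ]
    {κ κ' κ'' : Kernel Tor Tor} [IsMarkovKernel κ] [IsMarkovKernel κ'] [IsMarkovKernel κ'']
    (h : IsLim U β κ) (h' : IsLim U γ κ') (h'' : IsLim U (conv β γ) κ'') :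
    ∀ᵐ p ∂(β.prod γ), κ'' (p.1 + p.2) = conv (κ p.1) (κ' p.2) := by
  have h3 : ∀ᵐ p ∂(β.prod γ), ∀ j : ℤ, fc κ'' j (p.1 + p.2) = fc κ j p.1 * fc κ' j p.2 :=
    ae_all_iff.2 fun j => fc_conv h h' h'' j
  filter_upwards [h3] with p hp
  refine Helper17.TranslM.eq_of_fourier fun j => ?_
  rw [fourier_conv]
  exact hp j

end Helper25.IP
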