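import Mathlib

/-!
The J-lemma (elementary upper bound for Jucys-Murphy operators).

`rho` is an orthogonal representation of `Perm V` on a finite dimensional real inner product
space, `U` an invariant subspace in which no nonzero vector is fixed by `Sym(Y)`, `|Y| = m`.
Then `<u, sum_{y != x} rho(swap x y) u> <= (m-2) <u,u>` on `U`.
-/

namespace Pool.Agent.Helper25.IP

open Finset Equiv
open scoped InnerProductSpace

variable {E : Type*} [NormedAddCommGroup E] [InnerProductSpace ℝ E] [FiniteDimensional ℝ E]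

theorem inner_le_of_eigen (T : E →ₗ[ℝ] E) (hT : T.IsSymmetric) (C : ℝ)
    (h : ∀ (c : ℝ) (f : E), f ≠ 0 → T f = c • f → c ≤ C) (u : E) :
    ⟪u, T u⟫_ℝ ≤ C * ⟪u, u⟫_ℝ := by
  classical
  set b := hT.eigenvectorBasis (n := Module.finrank ℝ E) rfl with hb
  have h1 : ⟪u, T u⟫_ℝ = ∑ i, ⟪u, b i⟫_ℝ * ⟪b i, T u⟫_ℝ := (b.sum_inner_mul_inner u (T u)).symm
  have h2 : ⟪u, u⟫_ℝ = ∑ i, ⟪u, b i⟫_ℝ * ⟪b i, u⟫_ℝ := (b.sum_inner_mul_inner u u).symm
  rw [h1, h2, Finset.mul_sum]
  refine Finset.sum_le_sum fun i _ => ?_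
  have h3 : T (b i) = (hT.eigenvalues rfl i : ℝ) • b i := by
    exact hT.apply_eigenvectorBasis (n := Module.finrank ℝ E) rfl i
  have h4 : hT.eigenvalues rfl i ≤ C := h _ (b i) (b.orthonormal.ne_zero i) h3
  have h5 : ⟪b i, T u⟫_ℝ = hT.eigenvalues rfl i * ⟪b i, u⟫_ℝ := by
    rw [← hT (b i) u, h3, real_inner_smul_left]
  rw [h5, real_inner_comm u (b i)]
  nlinarith [mul_self_nonneg ⟪b i, u⟫_ℝ]

theorem inner_le_of_eigen_sub (T : E →ₗ[ℝ] E) (hT : T.IsSymmetric) (U : Submodule ℝ E)
    (hU : ∀ u ∈ U, T u ∈ U) (C : ℝ)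
    (h : ∀ (c : ℝ) (f : E), f ∈ U → f ≠ 0 → T f = c • f → c ≤ C) (u : E) (hu : u ∈ U) :
    ⟪u, T u⟫_ℝ ≤ C * ⟪u, u⟫_ℝ := by
  have hS : (T.restrict hU).IsSymmetric := fun a b => hT a b
  have := inner_le_of_eigen (T.restrict hU) hS C (fun c f hf hfc => ?_) ⟨u, hu⟩
  · simpa using this
  · refine h c f f.2 (fun h0 => hf (Subtype.ext h0)) ?_
    have := congrArg Subtype.val hfc
    simpa using this

section
variable {V : Type*} [DecidableEq V] (rho : Equiv.Perm V →* Module.End ℝ E)
  (hrho : ∀ g u v, ⟪rho g u, rho g v⟫_ℝ = ⟪u, v⟫_ℝ)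

/-- fixed by all swaps inside `Y` -/
def FixBy (Y : Finset V) (u : E) : Prop := ∀ a ∈ Y, ∀ b ∈ Y, rho (swap a b) u = u

omit [FiniteDimensional ℝ E] in
theorem FixBy.mono {rho : Equiv.Perm V →* Module.End ℝ E} {Y Z : Finset V} {u : E}
    (h : FixBy rho Z u) (hY : Y ⊆ Z) : FixBy rho Y u :=
  fun a ha b hb => h a (hY ha) b (hY hb)

omit [FiniteDimensional ℝ E] [DecidableEq V] in
theorem rho_mul_apply (g h : Equiv.Perm V) (u : E) : rho g (rho h u) = rho (g * h) u := by
  rw [map_mul]; rfl

omit [FiniteDimensional ℝ E] in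
theorem rho_swap_swap (a b : V) (u : E) : rho (swap a b) (rho (swap a b) u) = u := by
  rw [rho_mul_apply, swap_mul_self, map_one]; rfl

omit [FiniteDimensional ℝ E] in
include hrho in
theorem rho_symm (a b : V) (u v : E) :
    ⟪rho (swap a b) u, v⟫_ℝ = ⟪u, rho (swap a b) v⟫_ℝ := by
  rw [← hrho (swap a b) u (rho (swap a b) v), rho_swap_swap]

omit [FiniteDimensional ℝ E] in
theorem rho_conj (g : Equiv.Perm V) (c d : V) (u : E) :
    rho g (rho (swap c d) u) = rho (swap (g c) (g d)) (rho g u) := by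
  rw [rho_mul_apply, rho_mul_apply, Equiv.mul_swap_eq_swap_mul]

omit [FiniteDimensional ℝ E] in
/-- adding one more point -/
theorem fixBy_insert {Y : Finset V} {u : E} (hu : FixBy rho Y u) {y : V} (hy : y ∉ Y) :
    FixBy rho (insert y Y) (u + ∑ z ∈ Y, rho (swap y z) u) := by
  have key1 : ∀ a ∈ Y, ∀ b ∈ Y, rho (swap a b) (u + ∑ z ∈ Y, rho (swap y z) u)
      = u + ∑ z ∈ Y, rho (swap y z) u := by
    intro a ha b hb
    rw [map_add, map_sum, hu a ha b hb]
    congr 1
    have hya : y ≠ a := fun h => hy (h ▸ ha)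
    have hyb : y ≠ b := fun h => hy (h ▸ hb)
    refine Finset.sum_bij' (fun z _ => swap a b z) (fun z _ => swap a b z) ?_ ?_ ?_ ?_ ?_
    · intro z hz
      by_cases h1 : z = a
      · subst h1; simpa using hb
      · by_cases h2 : z = b
        · subst h2; simpa using ha
        · rwa [swap_apply_of_ne_of_ne h1 h2]
    · intro z hz
      by_cases h1 : z = a
      · subst h1; simpa using hb
      · by_cases h2 : z = b
        · subst h2; simpa using ha
        · rwa [swap_apply_of_ne_of_ne h1 h2]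
    · intro z _; simp
    · intro z _; simp
    · intro z _
      rw [rho_conj, hu a ha b hb, swap_apply_of_ne_of_ne hya hyb]
  have key2 : ∀ b ∈ Y, rho (swap y b) (u + ∑ z ∈ Y, rho (swap y z) u)
      = u + ∑ z ∈ Y, rho (swap y z) u := by
    intro b hb
    rw [map_add, map_sum]
    rw [← Finset.add_sum_erase Y _ hb, ← Finset.add_sum_erase Y (fun z => rho (swap y z) u) hb,
      rho_swap_swap]
    have : ∑ z ∈ Y.erase b, rho (swap y b) (rho (swap y z) u)
        = ∑ z ∈ Y.erase b, rho (swap y z) u := by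
      refine Finset.sum_congr rfl fun z hz => ?_
      have hzb : z ≠ b := Finset.ne_of_mem_erase hz
      have hzY : z ∈ Y := Finset.mem_of_mem_erase hz
      have hyz : y ≠ z := fun h => hy (h ▸ hzY)
      have hyb : y ≠ b := fun h => hy (h ▸ hb)
      have e := rho_conj rho (swap y z) z b u
      rw [hu z hzY b hb, swap_apply_right, swap_apply_of_ne_of_ne hyb.symm hzb.symm] at e
      exact e.symm
    rw [this]
    abel
  intro a ha b hb
  rcases Finset.mem_insert.1 ha with rfl | ha'
  · rcases Finset.mem_insert.1 hb with rfl | hb'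
    · rw [swap_self]; change rho 1 _ = _; rw [map_one]; rfl
    · exact key2 b hb'
  · rcases Finset.mem_insert.1 hb with rfl | hb'
    · rw [swap_comm]; exact key2 a ha'
    · exact key1 a ha' b hb'

omit [FiniteDimensional ℝ E] in
include hrho in
theorem inner_fix_sum {Y : Finset V} {g v : E} {x : V}
    (hg : ∀ z ∈ Y, rho (swap x z) g = g) :
    ⟪g, ∑ z ∈ Y, rho (swap x z) v⟫_ℝ = Y.card * ⟪g, v⟫_ℝ := by
  rw [inner_sum]
  have : ∀ z ∈ Y, ⟪g, rho (swap x z) v⟫_ℝ = ⟪g, v⟫_ℝ := by
    intro z hz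
    rw [← rho_symm rho hrho, hg z hz]
  rw [Finset.sum_congr rfl this, Finset.sum_const, nsmul_eq_mul]

omit [FiniteDimensional ℝ E] in
include hrho in
/-- `<h, sum_{z in Y} tau_xz h> >= -|h|^2` for `h` fixed by `Sym Y`, `x` not in `Y`. -/
theorem neg_le_inner {Y : Finset V} {h : E} (hh : FixBy rho Y h) {x : V} (hx : x ∉ Y) :
    -⟪h, h⟫_ℝ ≤ ⟪h, ∑ z ∈ Y, rho (swap x z) h⟫_ℝ := by
  set k := h + ∑ z ∈ Y, rho (swap x z) h with hk
  have hkf := fixBy_insert rho hh hx
  rw [← hk] at hkf
  have h1 : ⟪k, ∑ z ∈ Y, rho (swap x z) h⟫_ℝ = Y.card * ⟪k, h⟫_ℝ :=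
    inner_fix_sum rho hrho (fun z hz => hkf x (by simp) z (by simp [hz]))
  have h2 : ⟪k, k⟫_ℝ = (Y.card + 1) * ⟪k, h⟫_ℝ := by
    conv_lhs => rw [hk]
    rw [inner_add_right, ← hk, h1]; ring
  have h3 : 0 ≤ ⟪k, k⟫_ℝ := real_inner_self_nonneg
  have h4 : 0 ≤ ⟪k, h⟫_ℝ := by
    by_contra hc
    push Not at hc
    have : (Y.card + 1 : ℝ) * ⟪k, h⟫_ℝ < 0 := by
      apply mul_neg_of_pos_of_neg _ hc; positivity
    linarith
  rw [hk, inner_add_left, real_inner_comm] at h4
  have h5 : ⟪∑ z ∈ Y, rho (swap x z) h, h⟫_ℝ = ⟪h, ∑ z ∈ Y, rho (swap x z) h⟫_ℝ :=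
    real_inner_comm _ _
  linarith

include hrho in
theorem jlemma_aux (n : ℕ) : ∀ (A : Finset V), A.card ≤ n → ∀ (U : Submodule ℝ E),
    (∀ a ∈ A, ∀ b ∈ A, ∀ u ∈ U, rho (swap a b) u ∈ U) → ∀ m : ℕ,
    (∀ Y ⊆ A, Y.card = m → ∀ u ∈ U, FixBy rho Y u → u = 0) →
    ∀ x ∈ A, ∀ u ∈ U, ⟪u, ∑ y ∈ A.erase x, rho (swap x y) u⟫_ℝ ≤ ((m : ℝ) - 2) * ⟪u, u⟫_ℝ := by
  classical
  induction n with
  | zero =>
    intro A hA U _ m _ x hx
    have : A = ∅ := by simpa using hA
    subst this; simp at hx
  | succ n ih =>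
    intro A hA U hU m hm x hx u hu
    set T : E →ₗ[ℝ] E := ∑ y ∈ A.erase x, rho (swap x y) with hTdef
    have hTa : ∀ v, T v = ∑ y ∈ A.erase x, rho (swap x y) v := fun v => by
      rw [hTdef, LinearMap.sum_apply]
    have hTs : T.IsSymmetric := by
      intro a b
      rw [hTa, hTa, sum_inner, inner_sum]
      exact Finset.sum_congr rfl fun z _ => rho_symm rho hrho x z a b
    have hTU : ∀ u ∈ U, T u ∈ U := by
      intro u hu
      rw [hTa]
      exact Submodule.sum_mem _ fun y hy => hU x hx y (Finset.mem_of_mem_erase hy) u hu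
    rw [← hTa]
    refine inner_le_of_eigen_sub T hTs U hTU _ ?_ u hu
    intro c f0 hf0 hf0ne hf0c
    -- the set of possible sizes
    let P : ℕ → Prop := fun k => ∃ Y' ⊆ A.erase x, Y'.card = k ∧
      ∃ f ∈ U, f ≠ 0 ∧ T f = c • f ∧ FixBy rho Y' f
    have hP0 : P 0 := ⟨∅, by simp, rfl, f0, hf0, hf0ne, hf0c, fun a ha => by simp at ha⟩
    have hPb : ∀ k, P k → k ≤ A.card := by
      rintro k ⟨Y', hY', rfl, -⟩
      exact Finset.card_le_card (hY'.trans (Finset.erase_subset _ _))
    obtain ⟨Y', hY', hμ, f, hfU, hfne, hfc, hfix⟩ := Nat.findGreatest_spec (P := P) (Nat.zero_le A.card) hP0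
    have hmax : ∀ k, P k → k ≤ Nat.findGreatest P A.card := fun k hk =>
      Nat.le_findGreatest (hPb k hk) hk
    set μ := Nat.findGreatest P A.card with hμd
    have hxY' : x ∉ Y' := fun h => by simpa using hY' h
    have hY'A : Y' ⊆ A := hY'.trans (Finset.erase_subset _ _)
    -- T commutes with swaps inside A.erase x
    have hcomm : ∀ a ∈ A.erase x, ∀ b ∈ A.erase x, ∀ v, T (rho (swap a b) v) = rho (swap a b) (T v) := by
      intro a ha b hb v
      rw [hTa, hTa, map_sum]
      symm
      have hxa : x ≠ a := (Finset.ne_of_mem_erase ha).symm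
      have hxb : x ≠ b := (Finset.ne_of_mem_erase hb).symm
      have hmem : ∀ z ∈ A.erase x, swap a b z ∈ A.erase x := by
        intro z hz
        by_cases h1 : z = a
        · subst h1; simpa using hb
        · by_cases h2 : z = b
          · subst h2; simpa using ha
          · rwa [swap_apply_of_ne_of_ne h1 h2]
      refine Finset.sum_bij' (fun z _ => swap a b z) (fun z _ => swap a b z) hmem hmem ?_ ?_ ?_
      · intro z _; simp
      · intro z _; simp
      · intro z _
        rw [rho_conj, swap_apply_of_ne_of_ne hxa hxb]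
    -- maximality
    have hmaxf : ∀ y ∈ A.erase x, y ∉ Y' → ∑ z ∈ Y', rho (swap y z) f = -f := by
      intro y hy hyY
      by_contra hne
      have hk : f + ∑ z ∈ Y', rho (swap y z) f ≠ 0 := by
        intro h0
        exact hne (eq_neg_of_add_eq_zero_right h0)
      have hP : P (μ + 1) := by
        refine ⟨insert y Y', ?_, ?_, f + ∑ z ∈ Y', rho (swap y z) f, ?_, hk, ?_, fixBy_insert rho hfix hyY⟩
        · exact Finset.insert_subset hy hY'
        · rw [Finset.card_insert_of_notMem hyY, hμ]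
        · refine U.add_mem hfU (Submodule.sum_mem _ fun z hz => ?_)
          exact hU y (Finset.mem_of_mem_erase hy) z (hY'A hz) f hfU
        · rw [map_add, map_sum, hfc, smul_add, Finset.smul_sum]
          congr 1
          refine Finset.sum_congr rfl fun z hz => ?_
          rw [hcomm y hy z (hY' hz), hfc, map_smul]
      have := hmax _ hP
      omega
    have hμm : μ < m := by
      by_contra hcon
      push Not at hcon
      obtain ⟨Y, hYs, hYc⟩ := Finset.exists_subset_card_eq (s := Y') (n := m) (by omega)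
      exact hfne (hm Y (hYs.trans hY'A) hYc f hfU (hfix.mono hYs))
    set g := f + ∑ z ∈ Y', rho (swap x z) f with hg
    have hgfix := fixBy_insert rho hfix hxY'
    rw [← hg] at hgfix
    have hgx : ∀ z ∈ Y', rho (swap x z) g = g := fun z hz => hgfix x (by simp) z (by simp [hz])
    have hgU : g ∈ U := by
      refine U.add_mem hfU (Submodule.sum_mem _ fun z hz => ?_)
      exact hU x hx z (hY'A hz) f hfU
    have hgf1 : ⟪g, ∑ z ∈ Y', rho (swap x z) f⟫_ℝ = μ * ⟪g, f⟫_ℝ := by
      rw [inner_fix_sum rho hrho hgx, hμ]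
    -- orthogonality
    have horth : ∀ y ∈ A.erase x, y ∉ Y' → ⟪g, rho (swap x y) f⟫_ℝ = 0 := by
      intro y hy hyY
      have h1 := hmaxf y hy hyY
      have h2 : ∑ z ∈ Y', rho (swap x z) (rho (swap x y) f) = - rho (swap x y) f := by
        rw [← map_neg, ← h1, map_sum]
        refine Finset.sum_congr rfl fun z hz => ?_
        have hzx : z ≠ x := fun h => hxY' (h ▸ hz)
        have hzy : z ≠ y := fun h => hyY (h ▸ hz)
        rw [rho_conj rho (swap x y) y z f, swap_apply_right, swap_apply_of_ne_of_ne hzx hzy]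
      have h3 := inner_fix_sum rho hrho (v := rho (swap x y) f) hgx
      rw [h2, inner_neg_right, hμ] at h3
      have : ((μ : ℝ) + 1) * ⟪g, rho (swap x y) f⟫_ℝ = 0 := by linarith
      rcases mul_eq_zero.1 this with h | h
      · exfalso; have : (0:ℝ) ≤ μ := by positivity
        linarith
      · exact h
    have hsplit : ∀ v, T v = ∑ z ∈ Y', rho (swap x z) v + ∑ z ∈ (A.erase x) \ Y', rho (swap x z) v := by
      intro v
      rw [hTa, add_comm, Finset.sum_sdiff hY']
    have hcg : c * ⟪g, f⟫_ℝ = μ * ⟪g, f⟫_ℝ := by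
      have h1 : ⟪g, T f⟫_ℝ = c * ⟪g, f⟫_ℝ := by rw [hfc, real_inner_smul_right]
      rw [← h1, hsplit, inner_add_right, hgf1, inner_sum]
      have : ∑ i ∈ (A.erase x) \ Y', ⟪g, rho (swap x i) f⟫_ℝ = 0 := by
        refine Finset.sum_eq_zero fun y hy => ?_
        rw [Finset.mem_sdiff] at hy
        exact horth y hy.1 hy.2
      rw [this, add_zero]
    by_cases hgf : ⟪g, f⟫_ℝ = 0
    · -- second case
      have hgg : ⟪g, g⟫_ℝ = 0 := by
        conv_lhs => rw [hg]
        rw [inner_add_right, ← hg, hgf1, hgf]; ring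
      have hg0 : g = 0 := inner_self_eq_zero.1 hgg
      have hsx : ∑ z ∈ Y', rho (swap x z) f = -f := by
        rw [hg] at hg0
        exact eq_neg_of_add_eq_zero_right hg0
      have hμ1 : 1 ≤ μ := by
        by_contra h0
        have h0' : Y' = ∅ := by
          rw [← Finset.card_eq_zero]; omega
        rw [h0'] at hsx
        simp at hsx
        exact hfne (by simpa using hsx)
      let A' := A \ Y'
      have hA' : A'.card ≤ n := by
        have : A'.card + Y'.card = A.card := Finset.card_sdiff_add_card_eq_card hY'A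
        omega
      let U' : Submodule ℝ E :=
        { carrier := {h | h ∈ U ∧ FixBy rho Y' h ∧ ∀ y ∈ A', ∑ z ∈ Y', rho (swap y z) h = -h}
          zero_mem' := ⟨U.zero_mem, fun a _ b _ => map_zero _, fun y _ => by simp⟩
          add_mem' := by
            rintro a b ⟨ha1, ha2, ha3⟩ ⟨hb1, hb2, hb3⟩
            refine ⟨U.add_mem ha1 hb1, fun p hp q hq => ?_, fun y hy => ?_⟩
            · rw [map_add, ha2 p hp q hq, hb2 p hp q hq]
            · simp only [map_add, Finset.sum_add_distrib]
              rw [ha3 y hy, hb3 y hy]; abel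
          smul_mem' := by
            rintro r a ⟨ha1, ha2, ha3⟩
            refine ⟨U.smul_mem r ha1, fun p hp q hq => ?_, fun y hy => ?_⟩
            · rw [map_smul, ha2 p hp q hq]
            · simp only [map_smul, ← Finset.smul_sum]
              rw [ha3 y hy, smul_neg] }
      have hU'mem : ∀ h, h ∈ U' ↔ (h ∈ U ∧ FixBy rho Y' h ∧
          ∀ y ∈ A', ∑ z ∈ Y', rho (swap y z) h = -h) := fun h => Iff.rfl
      have hinv : ∀ a ∈ A', ∀ b ∈ A', ∀ u ∈ U', rho (swap a b) u ∈ U' := by
        intro a ha b hb h hh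
        rw [hU'mem] at hh ⊢
        obtain ⟨h1, h2, h3⟩ := hh
        have haA : a ∈ A := (Finset.mem_sdiff.1 ha).1
        have hbA : b ∈ A := (Finset.mem_sdiff.1 hb).1
        have haY : a ∉ Y' := (Finset.mem_sdiff.1 ha).2
        have hbY : b ∉ Y' := (Finset.mem_sdiff.1 hb).2
        have hfixp : ∀ p ∈ Y', swap a b p = p := by
          intro p hp
          exact swap_apply_of_ne_of_ne (fun h => haY (h ▸ hp)) (fun h => hbY (h ▸ hp))
        refine ⟨hU a haA b hbA h h1, ?_, ?_⟩
        · intro p hp q hq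
          have e := rho_conj rho (swap a b) p q h
          rw [hfixp p hp, hfixp q hq, h2 p hp q hq] at e
          exact e.symm
        · intro y hy
          have hy' : swap a b y ∈ A' := by
            by_cases h1 : y = a
            · subst h1; simpa using hb
            · by_cases h2 : y = b
              · subst h2; simpa using ha
              · rwa [swap_apply_of_ne_of_ne h1 h2]
          have e : ∀ z ∈ Y', rho (swap y z) (rho (swap a b) h)
              = rho (swap a b) (rho (swap (swap a b y) z) h) := by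
            intro z hz
            rw [rho_conj rho (swap a b) (swap a b y) z h, hfixp z hz, swap_apply_self]
          rw [Finset.sum_congr rfl e, ← map_sum, h3 _ hy', map_neg]
      have hnofix : ∀ Y ⊆ A', Y.card = μ + 1 → ∀ u ∈ U', FixBy rho Y u → u = 0 := by
        intro Y hYA hYc h hh hfixh
        rw [hU'mem] at hh
        obtain ⟨h1, h2, h3⟩ := hh
        have s1 : ∑ y ∈ Y, ⟪h, ∑ z ∈ Y', rho (swap y z) h⟫_ℝ = -(μ + 1) * ⟪h, h⟫_ℝ := by
          have : ∀ y ∈ Y, ⟪h, ∑ z ∈ Y', rho (swap y z) h⟫_ℝ = -⟪h, h⟫_ℝ := by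
            intro y hy
            rw [h3 y (hYA hy), inner_neg_right]
          rw [Finset.sum_congr rfl this, Finset.sum_const, nsmul_eq_mul, hYc]
          push_cast; ring
        have s2 : ∑ y ∈ Y, ⟪h, ∑ z ∈ Y', rho (swap y z) h⟫_ℝ
            = ∑ z ∈ Y', ⟪h, ∑ y ∈ Y, rho (swap z y) h⟫_ℝ := by
          simp only [inner_sum]
          rw [Finset.sum_comm]
          refine Finset.sum_congr rfl fun z _ => Finset.sum_congr rfl fun y _ => ?_
          rw [swap_comm]
        have s3 : -(μ : ℝ) * ⟪h, h⟫_ℝ ≤ ∑ z ∈ Y', ⟪h, ∑ y ∈ Y, rho (swap z y) h⟫_ℝ := by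
          have : ∑ z ∈ Y', -⟪h, h⟫_ℝ = -(μ : ℝ) * ⟪h, h⟫_ℝ := by
            rw [Finset.sum_const, nsmul_eq_mul, hμ]; ring
          rw [← this]
          refine Finset.sum_le_sum fun z hz => ?_
          refine neg_le_inner rho hrho hfixh ?_
          intro hzY
          exact (Finset.mem_sdiff.1 (hYA hzY)).2 hz
        have : ⟪h, h⟫_ℝ ≤ 0 := by
          rw [← s2, s1] at s3
          nlinarith
        exact inner_self_eq_zero.1 (le_antisymm this real_inner_self_nonneg)
      have hxA' : x ∈ A' := Finset.mem_sdiff.2 ⟨hx, hxY'⟩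
      have hfU' : f ∈ U' := by
        rw [hU'mem]
        refine ⟨hfU, hfix, fun y hy => ?_⟩
        by_cases hyx : y = x
        · subst hyx; exact hsx
        · exact hmaxf y (Finset.mem_erase.2 ⟨hyx, (Finset.mem_sdiff.1 hy).1⟩)
            (Finset.mem_sdiff.1 hy).2
      have hfin := ih A' hA' U' hinv (μ + 1) hnofix x hxA' f hfU'
      have hset : A'.erase x = (A.erase x) \ Y' := by
        ext z; simp [A', and_assoc]
      have hTf := hsplit f
      rw [hsx, hfc, ← hset] at hTf
      have hJ : ∑ z ∈ A'.erase x, rho (swap x z) f = (c + 1) • f := by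
        rw [add_smul, one_smul, hTf]; abel
      rw [hJ, real_inner_smul_right] at hfin
      have hff : 0 < ⟪f, f⟫_ℝ := real_inner_self_pos.2 hfne
      have h5 : c + 1 ≤ ((μ + 1 : ℕ) : ℝ) - 2 := le_of_mul_le_mul_right hfin hff
      have h6 : (μ : ℝ) + 1 ≤ m := by exact_mod_cast hμm
      push_cast at h5
      linarith
    · have hcμ : c = μ := mul_right_cancel₀ hgf hcg
      have hgne : g ≠ 0 := by
        intro h0; rw [h0, inner_zero_left] at hgf; exact hgf rfl
      have h7 : μ + 1 < m := by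
        by_contra hcon
        have heq : μ + 1 = m := by omega
        refine hgne (hm (insert x Y') (Finset.insert_subset hx hY'A) ?_ g hgU hgfix)
        rw [Finset.card_insert_of_notMem hxY', hμ, heq]
      have h8 : (μ : ℝ) + 2 ≤ m := by exact_mod_cast h7
      rw [hcμ]; linarith

include hrho in
/-- **J-lemma.** -/
theorem jlemma [Fintype V] (U : Submodule ℝ E) (hU : ∀ g, ∀ u ∈ U, rho g u ∈ U) (m : ℕ)
    (hm : ∀ Y : Finset V, Y.card = m → ∀ u ∈ U,
      (∀ g : Equiv.Perm V, (∀ z, z ∉ Y → g z = z) → rho g u = u) → u = 0)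
    (x : V) (u : E) (hu : u ∈ U) :
    ⟪u, ∑ y ∈ Finset.univ.erase x, rho (swap x y) u⟫_ℝ ≤ ((m : ℝ) - 2) * ⟪u, u⟫_ℝ := by
  refine jlemma_aux rho hrho (Finset.univ : Finset V).card Finset.univ le_rfl U
    (fun a _ b _ u hu => hU _ u hu) m ?_ x (Finset.mem_univ x) u hu
  intro Y _ hY v hv hfix
  refine hm Y hY v hv ?_
  -- a permutation supported in `Y` is a product of swaps inside `Y`
  have key : ∀ (n : ℕ) (g : Equiv.Perm V), g.support.card ≤ n → (∀ z, z ∉ Y → g z = z) →
      rho g v = v := by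
    intro n
    induction n with
    | zero =>
      intro g hg _
      have : g = 1 := by
        rw [← Equiv.Perm.card_support_eq_zero]; omega
      rw [this, map_one]; rfl
    | succ n ih =>
      intro g hg hgY
      by_cases h1 : g = 1
      · rw [h1, map_one]; rfl
      · obtain ⟨a, ha⟩ : ∃ a, g a ≠ a := by
          by_contra hcon
          push Not at hcon
          exact h1 (Equiv.ext hcon)
        have haY : a ∈ Y := by
          by_contra h; exact ha (hgY a h)
        have hgaY : g a ∈ Y := by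
          by_contra h
          exact ha (g.injective (hgY (g a) h))
        have hlt : (swap a (g a) * g).support.card < g.support.card :=
          Equiv.Perm.card_support_swap_mul ha
        have hfixz : ∀ z, z ∉ Y → (swap a (g a) * g) z = z := by
          intro z hz
          rw [Equiv.Perm.mul_apply, hgY z hz]
          exact swap_apply_of_ne_of_ne (fun h => hz (h ▸ haY)) (fun h => hz (h ▸ hgaY))
        have h2 := ih (swap a (g a) * g) (by omega) hfixz
        have h3 : g = swap a (g a) * (swap a (g a) * g) := by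
          rw [← mul_assoc, swap_mul_self, one_mul]
        rw [h3, ← rho_mul_apply, h2]
        exact hfix a haY (g a) hgaY
  intro g hg
  exact key _ g le_rfl hg

end

end Pool.Agent.Helper25.IP
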