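import Mathlib
import Pool.Agent.Helper91.IP.Defs
import Pool.Agent.Helper25.IP.JLemma

/-! Transport of the J-lemma to functions on permutations (IP-D1). -/

namespace Pool.Agent.Helper25.IP

open Finset Equiv Matrix Pool.Agent.Helper91.IP
open scoped InnerProductSpace

variable {V : Type} [Fintype V] [DecidableEq V]

/-- left translations on `EuclideanSpace ℝ (Perm V)` -/
noncomputable def rhoL (V : Type) [Fintype V] [DecidableEq V] :
    Perm V →* Module.End ℝ (EuclideanSpace ℝ (Perm V)) where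
  toFun g :=
    { toFun := fun v => WithLp.toLp 2 (fun s => v (g⁻¹ * s))
      map_add' := fun u v => by ext s; simp
      map_smul' := fun c v => by ext s; simp }
  map_one' := by ext v s; simp
  map_mul' g h := by
    ext v s
    simp [mul_assoc]

theorem rhoL_apply (g : Perm V) (v : EuclideanSpace ℝ (Perm V)) (s : Perm V) :
    rhoL V g v s = v (g⁻¹ * s) := rfl

theorem inner_fn (u v : EuclideanSpace ℝ (Perm V)) : ⟪u, v⟫_ℝ = ∑ s, u s * v s := by
  rw [PiLp.inner_apply]
  refine Finset.sum_congr rfl fun s _ => ?_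
  simp [mul_comm]

theorem rhoL_orth (g : Perm V) (u v : EuclideanSpace ℝ (Perm V)) :
    ⟪rhoL V g u, rhoL V g v⟫_ℝ = ⟪u, v⟫_ℝ := by
  rw [inner_fn, inner_fn]
  simp only [rhoL_apply]
  exact Equiv.sum_comp (Equiv.mulLeft g⁻¹) (fun s => u s * v s)

/-- IP-D1: an elementary bound on the Jucys–Murphy elements -/
theorem jucys (B : Finset V) (U : Submodule ℝ (Perm V → ℝ))
    (hU : ∀ x ∈ B, ∀ y ∈ B, ∀ f ∈ U, (fun s => f (swap x y * s)) ∈ U) (m : ℕ)
    (hm : ∀ Y ⊆ B, Y.card = m → ∀ f ∈ U,
      (∀ x ∈ Y, ∀ y ∈ Y, (fun s => f (swap x y * s)) = f) → f = 0)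
    (x : V) (hx : x ∈ B) (f : Perm V → ℝ) (hf : f ∈ U) :
    ∑ y ∈ B.erase x, cor f (swap x y) ≤ ((m : ℝ) - 2) * nsq f := by
  have hsw : ∀ (a b : V) (v : EuclideanSpace ℝ (Perm V)) (s : Perm V),
      rhoL V (swap a b) v s = v (swap a b * s) := by
    intro a b v s
    rw [rhoL_apply, Equiv.swap_inv]
  let U' : Submodule ℝ (EuclideanSpace ℝ (Perm V)) :=
    U.comap (WithLp.linearEquiv 2 ℝ (Perm V → ℝ)).toLinearMap
  have hmem : ∀ v : EuclideanSpace ℝ (Perm V), v ∈ U' ↔ (fun s => v s) ∈ U := fun v => Iff.rfl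
  have key := jlemma_aux (rhoL V) rhoL_orth B.card B le_rfl U' ?_ m ?_ x hx (WithLp.toLp 2 f) hf
  · rw [inner_sum, inner_fn] at key
    simp only [inner_fn, hsw] at key
    have e1 : ∀ y, ∑ s, f s * f (swap x y * s) = cor f (swap x y) := fun y => rfl
    have e2 : ∑ s, f s * f s = nsq f := by
      unfold nsq
      exact Finset.sum_congr rfl fun s _ => (sq (f s)).symm
    simp only [e1, e2] at key
    exact key
  · intro a ha b hb u hu
    rw [hmem] at hu ⊢
    have := hU a ha b hb _ hu
    simp only [hsw]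
    exact this
  · intro Y hY hc u hu hfix
    rw [hmem] at hu
    have := hm Y hY hc _ hu (by
      intro a ha b hb
      have h1 := hfix a ha b hb
      funext s
      have h2 := congrArg (fun v : EuclideanSpace ℝ (Perm V) => v s) h1
      simp only [hsw] at h2
      exact h2)
    ext s
    exact congrFun this s

end Pool.Agent.Helper25.IP
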