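import Mathlib

/-!
Commutator averages of orthogonal representations: for a finite group `G` acting orthogonally by
`phi` on a real inner product space of dimension `d >= 1`, the operator
`kap phi = (1/|G|^2) sum_{a,b} phi(a b a^-1 b^-1)` has trace at least `1/d`.
-/

namespace Pool.Agent.Helper25.IP

open Finset
open scoped InnerProductSpace

variable {E : Type*} [NormedAddCommGroup E] [InnerProductSpace ℝ E]

/-- the average of `phi` over commutators -/
noncomputable def kap {G : Type*} [Group G] [Fintype G] (phi : G →* Module.End ℝ E) :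
    Module.End ℝ E :=
  ((Fintype.card G : ℝ) ^ 2)⁻¹ • ∑ a : G, ∑ b : G, phi (a * b * a⁻¹ * b⁻¹)

section one
variable {G : Type*} [Group G] [Fintype G] (phi : G →* Module.End ℝ E)
  (horth : ∀ g u v, ⟪phi g u, phi g v⟫_ℝ = ⟪u, v⟫_ℝ)

omit [Fintype G] in
theorem phi_mul_apply (g h : G) (u : E) : phi g (phi h u) = phi (g * h) u := by
  rw [map_mul]; rfl

omit [Fintype G] in
theorem phi_one_apply (u : E) : phi 1 u = u := by rw [map_one]; rfl

omit [Fintype G] in
include horth in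
theorem phi_adj (g : G) (u v : E) : ⟪phi g u, v⟫_ℝ = ⟪u, phi g⁻¹ v⟫_ℝ := by
  rw [← horth g u (phi g⁻¹ v), phi_mul_apply, mul_inv_cancel, phi_one_apply]

include horth in
theorem kap_symm : (kap phi).IsSymmetric := by
  intro u v
  simp only [kap, LinearMap.smul_apply, LinearMap.sum_apply, inner_smul_left, inner_smul_right,
    sum_inner, inner_sum]
  simp only [RCLike.conj_to_real]
  congr 1
  rw [Finset.sum_comm]
  refine Finset.sum_congr rfl fun a _ => Finset.sum_congr rfl fun b _ => ?_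
  rw [phi_adj phi horth]
  congr 2
  group

theorem kap_comm_self (g : G) : Commute (kap phi) (phi g) := by
  unfold kap
  refine Commute.smul_left ?_ _
  show _ * _ = _ * _
  rw [Finset.sum_mul, Finset.mul_sum]
  rw [← Equiv.sum_comp (MulAut.conj g).toEquiv]
  refine Finset.sum_congr rfl fun a _ => ?_
  rw [Finset.sum_mul, Finset.mul_sum]
  rw [← Equiv.sum_comp (MulAut.conj g).toEquiv]
  refine Finset.sum_congr rfl fun b _ => ?_
  have e1 : (MulAut.conj g).toEquiv a = g * a * g⁻¹ := rfl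
  have e2 : (MulAut.conj g).toEquiv b = g * b * g⁻¹ := rfl
  rw [e1, e2, ← map_mul phi, ← map_mul phi]
  congr 1
  group

theorem kap_comm_of_comm (T : Module.End ℝ E) (hT : ∀ g, Commute T (phi g)) :
    Commute T (kap phi) := by
  unfold kap
  refine Commute.smul_right ?_ _
  exact Commute.sum_right _ _ _ fun a _ => Commute.sum_right _ _ _ fun b _ => hT _

end one

section coprod
variable {A B : Type*} [Group A] [Fintype A] [Group B] [Fintype B]
  (f : A →* Module.End ℝ E) (g : B →* Module.End ℝ E) (h : ∀ a b, Commute (f a) (g b))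

theorem kap_coprod : kap (f.noncommCoprod g h) = kap f * kap g := by
  unfold kap
  rw [smul_mul_smul_comm]
  congr 1
  · rw [Fintype.card_prod]; push_cast; rw [mul_pow, mul_inv]
  · rw [Fintype.sum_prod_type]
    simp only [Fintype.sum_prod_type]
    rw [Finset.sum_mul_sum]
    refine Finset.sum_congr rfl fun a _ => Finset.sum_congr rfl fun b _ => ?_
    rw [Finset.sum_mul_sum]
    refine Finset.sum_congr rfl fun a' _ => Finset.sum_congr rfl fun b' _ => ?_
    simp [MonoidHom.noncommCoprod_apply]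

omit [Fintype A] [Fintype B] in
theorem orth_coprod (hf : ∀ a u v, ⟪f a u, f a v⟫_ℝ = ⟪u, v⟫_ℝ)
    (hg : ∀ a u v, ⟪g a u, g a v⟫_ℝ = ⟪u, v⟫_ℝ) :
    ∀ a u v, ⟪f.noncommCoprod g h a u, f.noncommCoprod g h a v⟫_ℝ = ⟪u, v⟫_ℝ := by
  intro a u v
  rw [MonoidHom.noncommCoprod_apply]
  simp only [Module.End.mul_apply]
  rw [hf, hg]

end coprod

section trace
variable [FiniteDimensional ℝ E]
variable {G : Type*} [Group G] [Fintype G] (phi : G →* Module.End ℝ E)
  (horth : ∀ g u v, ⟪phi g u, phi g v⟫_ℝ = ⟪u, v⟫_ℝ)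

/-- matrix coefficients -/
noncomputable def mc (b : OrthonormalBasis (Fin (Module.finrank ℝ E)) ℝ E) (g : G)
    (i j : Fin (Module.finrank ℝ E)) : ℝ := ⟪b i, phi g (b j)⟫_ℝ

variable (b : OrthonormalBasis (Fin (Module.finrank ℝ E)) ℝ E)

omit [FiniteDimensional ℝ E] [Fintype G] in
theorem tr_eq (g : G) : LinearMap.trace ℝ E (phi g) = ∑ i, mc phi b g i i :=
  LinearMap.trace_eq_sum_inner (phi g) b

omit [FiniteDimensional ℝ E] [Fintype G] in
include horth in
theorem mc_mul_inv (x y : G) : LinearMap.trace ℝ E (phi (x * y⁻¹))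
    = ∑ i, ∑ j, mc phi b x i j * mc phi b y i j := by
  rw [LinearMap.trace_eq_sum_inner _ b]
  refine Finset.sum_congr rfl fun i _ => ?_
  rw [← phi_mul_apply]
  have h1 : ⟪b i, phi x (phi y⁻¹ (b i))⟫_ℝ = ⟪phi x⁻¹ (b i), phi y⁻¹ (b i)⟫_ℝ := by
    rw [phi_adj phi horth, inv_inv]
  rw [h1, ← b.sum_inner_mul_inner]
  refine Finset.sum_congr rfl fun j _ => ?_
  have h2 : ⟪phi x⁻¹ (b i), b j⟫_ℝ = mc phi b x i j := by
    rw [phi_adj phi horth, inv_inv]; rfl
  have h3 : ⟪b j, phi y⁻¹ (b i)⟫_ℝ = mc phi b y i j := by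
    rw [real_inner_comm, phi_adj phi horth, inv_inv]; rfl
  rw [h2, h3]

omit [Fintype G] in
include horth in
theorem mc_sq (x : G) : ∑ i, ∑ j, mc phi b x i j ^ 2 = Module.finrank ℝ E := by
  have := mc_mul_inv phi horth b x x
  rw [mul_inv_cancel, map_one, LinearMap.trace_one] at this
  rw [this]
  simp only [sq]

include horth in
theorem sum_chi_sq (hd : 0 < Module.finrank ℝ E) :
    (Fintype.card G : ℝ) ≤ ∑ g : G, (LinearMap.trace ℝ E (phi g)) ^ 2 := by
  have b := stdOrthonormalBasis ℝ E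
  set d := Module.finrank ℝ E with hdd
  set N : ℝ := (Fintype.card G : ℝ) with hN
  have hN0 : 0 < N := by rw [hN]; exact_mod_cast Fintype.card_pos
  have hd0 : (0 : ℝ) < d := by exact_mod_cast hd
  -- left side
  have h1 : N * ∑ g : G, (LinearMap.trace ℝ E (phi g)) ^ 2
      = ∑ x : G, ∑ y : G, (∑ i, ∑ j, mc phi b x i j * mc phi b y i j) ^ 2 := by
    have : ∀ y : G, ∑ g : G, (LinearMap.trace ℝ E (phi g)) ^ 2
        = ∑ x : G, (∑ i, ∑ j, mc phi b x i j * mc phi b y i j) ^ 2 := by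
      intro y
      rw [← Equiv.sum_comp (Equiv.mulRight y⁻¹)]
      refine Finset.sum_congr rfl fun x _ => ?_
      rw [← mc_mul_inv phi horth b x y]; rfl
    rw [Finset.sum_comm, ← Finset.sum_congr rfl (fun y _ => this y), Finset.sum_const,
      Finset.card_univ, nsmul_eq_mul]
  let W : (Fin d × Fin d) → (Fin d × Fin d) → ℝ := fun p q =>
    ∑ x : G, mc phi b x p.1 p.2 * mc phi b x q.1 q.2
  have h2 : ∑ x : G, ∑ y : G, (∑ i, ∑ j, mc phi b x i j * mc phi b y i j) ^ 2
      = ∑ p : Fin d × Fin d, ∑ q : Fin d × Fin d, W p q ^ 2 := by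
    have e1 : ∀ x y : G, (∑ i, ∑ j, mc phi b x i j * mc phi b y i j) ^ 2
        = ∑ p : Fin d × Fin d, ∑ q : Fin d × Fin d,
          (mc phi b x p.1 p.2 * mc phi b x q.1 q.2) * (mc phi b y p.1 p.2 * mc phi b y q.1 q.2) := by
      intro x y
      have : ∑ i, ∑ j, mc phi b x i j * mc phi b y i j
          = ∑ p : Fin d × Fin d, mc phi b x p.1 p.2 * mc phi b y p.1 p.2 := by
        rw [Fintype.sum_prod_type]
      rw [this, sq, Finset.sum_mul_sum]
      refine Finset.sum_congr rfl fun p _ => Finset.sum_congr rfl fun q _ => ?_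
      ring
    simp only [e1]
    have e2 : ∀ p q : Fin d × Fin d, W p q ^ 2 = ∑ x : G, ∑ y : G,
        (mc phi b x p.1 p.2 * mc phi b x q.1 q.2) * (mc phi b y p.1 p.2 * mc phi b y q.1 q.2) := by
      intro p q
      simp only [W]
      rw [sq, Finset.sum_mul_sum]
    simp only [e2]
    rw [← Finset.sum_product' (s := (univ : Finset G)) (t := (univ : Finset G))
      (f := fun x y => ∑ p : Fin d × Fin d, ∑ q : Fin d × Fin d,
        (mc phi b x p.1 p.2 * mc phi b x q.1 q.2) * (mc phi b y p.1 p.2 * mc phi b y q.1 q.2))]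
    rw [Finset.sum_comm]
    refine Finset.sum_congr rfl fun p _ => ?_
    rw [Finset.sum_comm]
    refine Finset.sum_congr rfl fun q _ => ?_
    rw [Finset.sum_product' (s := (univ : Finset G)) (t := (univ : Finset G))
      (f := fun x y =>
        (mc phi b x p.1 p.2 * mc phi b x q.1 q.2) * (mc phi b y p.1 p.2 * mc phi b y q.1 q.2))]
  have h3 : N ^ 2 ≤ ∑ p : Fin d × Fin d, ∑ q : Fin d × Fin d, W p q ^ 2 := by
    have a1 : ∑ p : Fin d × Fin d, W p p ^ 2
        ≤ ∑ p : Fin d × Fin d, ∑ q : Fin d × Fin d, W p q ^ 2 := by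
      refine Finset.sum_le_sum fun p _ => ?_
      exact Finset.single_le_sum (f := fun q => W p q ^ 2) (fun q _ => sq_nonneg _)
        (Finset.mem_univ p)
    have a2 : (∑ p : Fin d × Fin d, W p p) ^ 2 ≤ (d : ℝ) ^ 2 * ∑ p : Fin d × Fin d, W p p ^ 2 := by
      have := sq_sum_le_card_mul_sum_sq (s := (univ : Finset (Fin d × Fin d))) (f := fun p => W p p)
      rw [Finset.card_univ, Fintype.card_prod, Fintype.card_fin] at this
      push_cast at this
      rw [sq (d : ℝ)]; exact this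
    have a3 : ∑ p : Fin d × Fin d, W p p = N * d := by
      simp only [W]
      rw [Finset.sum_comm]
      have : ∀ x : G, ∑ p : Fin d × Fin d, mc phi b x p.1 p.2 * mc phi b x p.1 p.2 = d := by
        intro x
        rw [Fintype.sum_prod_type, ← mc_sq phi horth b x]
        simp only [sq]
        rfl
      rw [Finset.sum_congr rfl (fun x _ => this x), Finset.sum_const, Finset.card_univ,
        nsmul_eq_mul]
    rw [a3, mul_pow, mul_comm (N ^ 2)] at a2
    have hd2 : (0 : ℝ) < (d : ℝ) ^ 2 := by positivity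
    exact (le_of_mul_le_mul_left a2 hd2).trans a1
  have h4 : N * N ≤ N * ∑ g : G, (LinearMap.trace ℝ E (phi g)) ^ 2 := by
    rw [h1, h2]; nlinarith [h3]
  exact le_of_mul_le_mul_left h4 hN0

omit [FiniteDimensional ℝ E] [Fintype G] in
theorem trace_conj (h a : G) : LinearMap.trace ℝ E (phi (h * a * h⁻¹))
    = LinearMap.trace ℝ E (phi a) := by
  rw [map_mul, LinearMap.trace_mul_comm, ← map_mul]
  congr 2
  group

include horth in
/-- The trace of the commutator average is at least `1/dim`. -/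
theorem trace_kap_ge (hd : 0 < Module.finrank ℝ E) :
    1 / (Module.finrank ℝ E : ℝ) ≤ LinearMap.trace ℝ E (kap phi) := by
  classical
  have b := stdOrthonormalBasis ℝ E
  set d := Module.finrank ℝ E with hdd
  set N : ℝ := (Fintype.card G : ℝ) with hN
  have hN0 : 0 < N := by rw [hN]; exact_mod_cast Fintype.card_pos
  have hd0 : (0 : ℝ) < d := by exact_mod_cast hd
  set chi : G → ℝ := fun g => LinearMap.trace ℝ E (phi g) with hchi
  have hk : LinearMap.trace ℝ E (kap phi) = (N ^ 2)⁻¹ * ∑ a : G, ∑ c : G, chi (a * c * a⁻¹ * c⁻¹) := by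
    unfold kap
    rw [map_smul, map_sum, smul_eq_mul]
    congr 1
    refine Finset.sum_congr rfl fun a _ => ?_
    rw [map_sum]
  -- step 1
  have s1 : N * ∑ a : G, ∑ c : G, chi (a * c * a⁻¹ * c⁻¹)
      = ∑ a : G, ∑ h : G, ∑ h' : G, chi (h * a * h⁻¹ * (h' * a * h'⁻¹)⁻¹) := by
    rw [Finset.mul_sum]
    refine Finset.sum_congr rfl fun a _ => ?_
    have : ∀ h : G, ∑ h' : G, chi (h * a * h⁻¹ * (h' * a * h'⁻¹)⁻¹)
        = ∑ c : G, chi (a * c * a⁻¹ * c⁻¹) := by
      intro h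
      rw [← Equiv.sum_comp (Equiv.mulLeft h)]
      refine Finset.sum_congr rfl fun c _ => ?_
      have e : h * a * h⁻¹ * ((Equiv.mulLeft h) c * a * ((Equiv.mulLeft h) c)⁻¹)⁻¹
          = h * (a * c * a⁻¹ * c⁻¹) * h⁻¹ := by
        simp only [Equiv.coe_mulLeft]
        group
      rw [e]
      exact trace_conj phi h _
    rw [Finset.sum_congr rfl (fun h _ => this h), Finset.sum_const, Finset.card_univ,
      nsmul_eq_mul]
  -- step 2
  have s2 : ∀ a : G, N ^ 2 * chi a ^ 2 / d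
      ≤ ∑ h : G, ∑ h' : G, chi (h * a * h⁻¹ * (h' * a * h'⁻¹)⁻¹) := by
    intro a
    let C : Fin d → Fin d → ℝ := fun i j => ∑ h : G, mc phi b (h * a * h⁻¹) i j
    have t1 : ∑ h : G, ∑ h' : G, chi (h * a * h⁻¹ * (h' * a * h'⁻¹)⁻¹)
        = ∑ i, ∑ j, C i j ^ 2 := by
      have e1 : ∀ h h' : G, chi (h * a * h⁻¹ * (h' * a * h'⁻¹)⁻¹)
          = ∑ i, ∑ j, mc phi b (h * a * h⁻¹) i j * mc phi b (h' * a * h'⁻¹) i j :=
        fun h h' => mc_mul_inv phi horth b _ _
      simp only [e1]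
      have e2 : ∀ i j, C i j ^ 2 = ∑ h : G, ∑ h' : G,
          mc phi b (h * a * h⁻¹) i j * mc phi b (h' * a * h'⁻¹) i j := by
        intro i j
        simp only [C]
        rw [sq, Finset.sum_mul_sum]
      simp only [e2]
      calc ∑ h : G, ∑ h' : G, ∑ i, ∑ j, mc phi b (h * a * h⁻¹) i j * mc phi b (h' * a * h'⁻¹) i j
          = ∑ h : G, ∑ i, ∑ h' : G, ∑ j,
            mc phi b (h * a * h⁻¹) i j * mc phi b (h' * a * h'⁻¹) i j :=
            Finset.sum_congr rfl fun h _ => Finset.sum_comm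
        _ = ∑ i, ∑ h : G, ∑ h' : G, ∑ j,
            mc phi b (h * a * h⁻¹) i j * mc phi b (h' * a * h'⁻¹) i j := Finset.sum_comm
        _ = ∑ i, ∑ h : G, ∑ j, ∑ h' : G,
            mc phi b (h * a * h⁻¹) i j * mc phi b (h' * a * h'⁻¹) i j :=
            Finset.sum_congr rfl fun i _ => Finset.sum_congr rfl fun h _ => Finset.sum_comm
        _ = ∑ i, ∑ j, ∑ h : G, ∑ h' : G,
            mc phi b (h * a * h⁻¹) i j * mc phi b (h' * a * h'⁻¹) i j :=
            Finset.sum_congr rfl fun i _ => Finset.sum_comm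
    have t2 : ∑ i, C i i ^ 2 ≤ ∑ i, ∑ j, C i j ^ 2 := by
      refine Finset.sum_le_sum fun i _ => ?_
      exact Finset.single_le_sum (f := fun j => C i j ^ 2) (fun j _ => sq_nonneg _)
        (Finset.mem_univ i)
    have t3 : (∑ i, C i i) ^ 2 ≤ (d : ℝ) * ∑ i, C i i ^ 2 := by
      have := sq_sum_le_card_mul_sum_sq (s := (univ : Finset (Fin d))) (f := fun i => C i i)
      rwa [Finset.card_univ, Fintype.card_fin] at this
    have t4 : ∑ i, C i i = N * chi a := by
      simp only [C]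
      rw [Finset.sum_comm]
      have : ∀ h : G, ∑ i, mc phi b (h * a * h⁻¹) i i = chi a := by
        intro h
        rw [← tr_eq phi b, trace_conj phi]
      rw [Finset.sum_congr rfl (fun h _ => this h), Finset.sum_const, Finset.card_univ,
        nsmul_eq_mul]
    rw [t4, mul_pow] at t3
    rw [t1, div_le_iff₀ hd0]
    calc N ^ 2 * chi a ^ 2 ≤ (d : ℝ) * ∑ i, C i i ^ 2 := t3
      _ ≤ (d : ℝ) * ∑ i, ∑ j, C i j ^ 2 := mul_le_mul_of_nonneg_left t2 hd0.le
      _ = _ := mul_comm _ _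
  have s3 := sum_chi_sq phi horth hd
  have s4 : N ^ 2 * N / d ≤ N * ∑ a : G, ∑ c : G, chi (a * c * a⁻¹ * c⁻¹) := by
    rw [s1]
    calc N ^ 2 * N / d ≤ N ^ 2 * (∑ a : G, chi a ^ 2) / d := by
          apply div_le_div_of_nonneg_right _ hd0.le
          exact mul_le_mul_of_nonneg_left s3 (by positivity)
      _ = ∑ a : G, N ^ 2 * chi a ^ 2 / d := by
          rw [Finset.mul_sum, Finset.sum_div]
      _ ≤ _ := Finset.sum_le_sum fun a _ => s2 a
  rw [hk]
  have s5 : N ^ 2 / d ≤ ∑ a : G, ∑ c : G, chi (a * c * a⁻¹ * c⁻¹) := by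
    have : N * (N ^ 2 / d) ≤ N * ∑ a : G, ∑ c : G, chi (a * c * a⁻¹ * c⁻¹) := by
      calc N * (N ^ 2 / d) = N ^ 2 * N / d := by ring
        _ ≤ _ := s4
    exact le_of_mul_le_mul_left this hN0
  have hN2 : (0:ℝ) < N ^ 2 := by positivity
  rw [inv_mul_eq_div, le_div_iff₀ hN2]
  calc 1 / (d : ℝ) * N ^ 2 = N ^ 2 / d := by ring
    _ ≤ _ := s5

end trace

section four
variable [FiniteDimensional ℝ E]

/-- Four commuting groups whose commutator averages act by the scalars `k i`: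
`d * average of the k i >= sqrt d`. -/
theorem avg_ge {G : Fin 4 → Type*} [∀ i, Group (G i)] [∀ i, Fintype (G i)]
    (phi : ∀ i, G i →* Module.End ℝ E)
    (horth : ∀ i g u v, ⟪phi i g u, phi i g v⟫_ℝ = ⟪u, v⟫_ℝ)
    (hcomm : ∀ i j, i ≠ j → ∀ g h, Commute (phi i g) (phi j h))
    (hd : 0 < Module.finrank ℝ E) (k : Fin 4 → ℝ) (hk : ∀ i, kap (phi i) = k i • 1) :
    Real.sqrt (Module.finrank ℝ E) ≤ (Module.finrank ℝ E : ℝ) * ((1 / 4) * ∑ i, k i) := by
  set d : ℝ := (Module.finrank ℝ E : ℝ) with hdd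
  have hd0 : (0 : ℝ) < d := by rw [hdd]; exact_mod_cast hd
  have hsc : ∀ c : ℝ, LinearMap.trace ℝ E (c • 1) = c * d := by
    intro c
    rw [map_smul, LinearMap.trace_one, smul_eq_mul]
  have hpos : ∀ i, 0 < k i := by
    intro i
    have h1 := trace_kap_ge (phi i) (horth i) hd
    rw [hk i, hsc] at h1
    have h2 : 0 < k i * d := lt_of_lt_of_le (by positivity) h1
    exact (mul_pos_iff_of_pos_right hd0).1 h2
  let f01 := (phi 0).noncommCoprod (phi 1) (hcomm 0 1 (by decide))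
  let f23 := (phi 2).noncommCoprod (phi 3) (hcomm 2 3 (by decide))
  have hc : ∀ a b, Commute (f01 a) (f23 b) := by
    intro a b
    simp only [f01, f23, MonoidHom.noncommCoprod_apply]
    refine Commute.mul_left (Commute.mul_right ?_ ?_) (Commute.mul_right ?_ ?_)
    · exact hcomm 0 2 (by decide) _ _
    · exact hcomm 0 3 (by decide) _ _
    · exact hcomm 1 2 (by decide) _ _
    · exact hcomm 1 3 (by decide) _ _
  have h3 := trace_kap_ge (f01.noncommCoprod f23 hc)
    (orth_coprod f01 f23 hc (orth_coprod _ _ _ (horth 0) (horth 1))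
      (orth_coprod _ _ _ (horth 2) (horth 3))) hd
  rw [kap_coprod, kap_coprod, kap_coprod, hk, hk, hk, hk] at h3
  have h4 : ((k 0 • (1 : Module.End ℝ E)) * (k 1 • 1)) * ((k 2 • 1) * (k 3 • 1))
      = (k 0 * k 1 * (k 2 * k 3)) • 1 := by
    simp only [smul_mul_smul_comm, mul_one]
  rw [h4, hsc, ← hdd] at h3
  have h5 : (1 / d) ^ 2 ≤ k 0 * k 1 * (k 2 * k 3) := by
    have : 1 / d * (1 / d) ≤ (k 0 * k 1 * (k 2 * k 3) * d) * (1 / d) :=
      mul_le_mul_of_nonneg_right h3 (by positivity)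
    have e : (k 0 * k 1 * (k 2 * k 3) * d) * (1 / d) = k 0 * k 1 * (k 2 * k 3) := by
      field_simp
    rw [e] at this
    rw [sq]; exact this
  rw [Fin.sum_univ_four]
  set s : ℝ := 1 / 4 * (k 0 + k 1 + k 2 + k 3) with hs
  have hs0 : 0 < s := by
    have := hpos 0; have := hpos 1; have := hpos 2; have := hpos 3
    rw [hs]; positivity
  have h6 : k 0 * k 1 * (k 2 * k 3) ≤ (s ^ 2) ^ 2 := by
    have a0 := hpos 0
    have a1 := hpos 1
    have a2 := hpos 2
    have a3 := hpos 3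
    have b1 : k 0 * k 1 ≤ ((k 0 + k 1) / 2) ^ 2 := by nlinarith [sq_nonneg (k 0 - k 1)]
    have b2 : k 2 * k 3 ≤ ((k 2 + k 3) / 2) ^ 2 := by nlinarith [sq_nonneg (k 2 - k 3)]
    have b3 : (k 0 + k 1) / 2 * ((k 2 + k 3) / 2) ≤ s ^ 2 := by
      rw [hs]; nlinarith [sq_nonneg ((k 0 + k 1) / 2 - (k 2 + k 3) / 2)]
    calc k 0 * k 1 * (k 2 * k 3) ≤ ((k 0 + k 1) / 2) ^ 2 * ((k 2 + k 3) / 2) ^ 2 :=
          mul_le_mul b1 b2 (by positivity) (by positivity)
      _ = ((k 0 + k 1) / 2 * ((k 2 + k 3) / 2)) ^ 2 := by ring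
      _ ≤ (s ^ 2) ^ 2 := pow_le_pow_left₀ (by positivity) b3 2
  have h7 : 1 / d ≤ s ^ 2 := by
    have := h5.trans h6
    exact le_of_sq_le_sq this (by positivity)
  have h8 : d ≤ (d * s) ^ 2 := by
    have : d * d * (1 / d) ≤ d * d * s ^ 2 := mul_le_mul_of_nonneg_left h7 (by positivity)
    have e : d * d * (1 / d) = d := by field_simp
    rw [e] at this
    calc d ≤ d * d * s ^ 2 := this
      _ = (d * s) ^ 2 := by ring
  exact Real.sqrt_le_iff.2 ⟨by positivity, h8⟩

end four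

end Pool.Agent.Helper25.IP
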