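import Mathlib
import Pool.Agent.Helper25.IP.Rep

/-!
`Tr (K^2) <= ((1/4) sum_i Tr (K kap_i))^2` for a positive operator `K` commuting with four
commuting finite groups of orthogonal maps; `kap_i` are the commutator averages.
-/

namespace Pool.Agent.Helper25.IP

open Finset
open scoped InnerProductSpace Function

variable {E : Type*} [NormedAddCommGroup E] [InnerProductSpace ℝ E] [FiniteDimensional ℝ E]

omit [FiniteDimensional ℝ E] in
/-- restriction of an action to an invariant subspace -/
noncomputable def resHom {G : Type*} [Group G] (phi : G →* Module.End ℝ E) (F : Submodule ℝ E)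
    (hF : ∀ g, ∀ u ∈ F, phi g u ∈ F) : G →* Module.End ℝ F where
  toFun g := (phi g).restrict (hF g)
  map_one' := by
    ext u
    simp [LinearMap.restrict_apply]
  map_mul' g h := by
    ext u
    simp [LinearMap.restrict_apply]

omit [FiniteDimensional ℝ E] in
theorem resHom_apply {G : Type*} [Group G] (phi : G →* Module.End ℝ E) (F : Submodule ℝ E)
    (hF : ∀ g, ∀ u ∈ F, phi g u ∈ F) (g : G) (u : F) :
    ((resHom phi F hF g u : F) : E) = phi g u := rfl

theorem trace_sq_le_and {G : Fin 4 → Type*} [∀ i, Group (G i)] [∀ i, Fintype (G i)]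
    (phi : ∀ i, G i →* Module.End ℝ E)
    (horth : ∀ i g u v, ⟪phi i g u, phi i g v⟫_ℝ = ⟪u, v⟫_ℝ)
    (hcomm : ∀ i j, i ≠ j → ∀ g h, Commute (phi i g) (phi j h))
    (K : Module.End ℝ E) (hKs : LinearMap.IsSymmetric K) (hKpos : ∀ u, 0 ≤ ⟪u, K u⟫_ℝ)
    (hKc : ∀ i g, Commute K (phi i g)) :
    0 ≤ (1 / 4) * ∑ i, LinearMap.trace ℝ E (K * kap (phi i)) ∧
    LinearMap.trace ℝ E (K * K)
      ≤ ((1 / 4) * ∑ i, LinearMap.trace ℝ E (K * kap (phi i))) ^ 2 := by
  classical
  -- the commuting family
  let T : Option (Fin 4) → Module.End ℝ E := fun o => o.elim K (fun i => kap (phi i))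
  have hTs : ∀ o, LinearMap.IsSymmetric (T o) := by
    rintro (_ | i)
    · exact hKs
    · exact kap_symm (phi i) (horth i)
  have hkk : ∀ i j, i ≠ j → Commute (kap (phi i)) (kap (phi j)) := by
    intro i j hij
    refine kap_comm_of_comm (phi j) _ fun g => ?_
    exact (kap_comm_of_comm (phi i) _ fun h => hcomm j i hij.symm g h).symm
  have hKk : ∀ i, Commute K (kap (phi i)) := fun i => kap_comm_of_comm (phi i) _ fun g => hKc i g
  have hTc : Pairwise (Commute on T) := by
    intro o o' hne
    rcases o with _ | i <;> rcases o' with _ | j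
    · exact absurd rfl hne
    · exact hKk j
    · exact (hKk i).symm
    · exact hkk i j (fun h => hne (h ▸ rfl))
  have hTphi : ∀ o i g, Commute (T o) (phi i g) := by
    rintro (_ | j) i g
    · exact hKc i g
    · by_cases h : j = i
      · subst h; exact kap_comm_self (phi j) g
      · exact (kap_comm_of_comm (phi j) _ fun h' => hcomm i j (Ne.symm h) g h').symm
  let N : (Option (Fin 4) → ℝ) → Submodule ℝ E := fun α => ⨅ o, Module.End.eigenspace (T o) (α o)
  have hint : DirectSum.IsInternal N :=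
    LinearMap.IsSymmetric.directSum_isInternal_of_pairwise_commute hTs hTc
  have hfin : {α | N α ≠ ⊥}.Finite :=
    WellFoundedGT.finite_ne_bot_of_iSupIndep hint.submodule_iSupIndep
  have hmem : ∀ α u, u ∈ N α ↔ ∀ o, T o u = α o • u := by
    intro α u
    simp only [N, Submodule.mem_iInf, Module.End.mem_eigenspace_iff]
  have hNK : ∀ α u, u ∈ N α → K u = α none • u := fun α u hu => (hmem α u).1 hu none
  have hNk : ∀ α u i, u ∈ N α → kap (phi i) u = α (some i) • u :=
    fun α u i hu => (hmem α u).1 hu (some i)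
  have hinv : ∀ α i g, ∀ u ∈ N α, phi i g u ∈ N α := by
    intro α i g u hu
    rw [hmem] at hu ⊢
    intro o
    have := LinearMap.congr_fun (hTphi o i g).eq u
    simp only [Module.End.mul_apply] at this
    rw [this, hu o, map_smul]
  -- traces of operators acting by scalars on the pieces
  have htr : ∀ (S : Module.End ℝ E) (c : (Option (Fin 4) → ℝ) → ℝ)
      (_ : ∀ α u, u ∈ N α → S u = c α • u),
      LinearMap.trace ℝ E S = ∑ α ∈ hfin.toFinset, c α * (Module.finrank ℝ (N α) : ℝ) := by
    intro S c hS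
    have hmap : ∀ α, Set.MapsTo S (N α) (N α) := by
      intro α u hu
      rw [hS α u hu]
      exact (N α).smul_mem _ hu
    rw [LinearMap.trace_eq_sum_trace_restrict' hint hfin hmap]
    refine Finset.sum_congr rfl fun α _ => ?_
    have : S.restrict (hmap α) = c α • (1 : Module.End ℝ (N α)) := by
      ext u
      simp only [LinearMap.smul_apply, Module.End.one_apply]
      exact hS α u u.2
    rw [this, map_smul, LinearMap.trace_one, smul_eq_mul]
  have hKK := htr (K * K) (fun α => α none ^ 2) (by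
    intro α u hu
    rw [Module.End.mul_apply, hNK α u hu, map_smul, hNK α u hu, smul_smul, sq])
  have hKkap : ∀ i, LinearMap.trace ℝ E (K * kap (phi i))
      = ∑ α ∈ hfin.toFinset, (α none * α (some i)) * (Module.finrank ℝ (N α) : ℝ) := by
    intro i
    refine htr _ (fun α => α none * α (some i)) ?_
    intro α u hu
    rw [Module.End.mul_apply, hNk α u i hu, map_smul, hNK α u hu, smul_smul, mul_comm]
  -- positivity of the K-eigenvalue on nonzero pieces
  have hKα : ∀ α ∈ hfin.toFinset, 0 ≤ α none := by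
    intro α hα
    have hne : N α ≠ ⊥ := by simpa using hα
    obtain ⟨u, hu, hu0⟩ := Submodule.exists_mem_ne_zero_of_ne_bot hne
    have h1 := hKpos u
    rw [hNK α u hu, real_inner_smul_right] at h1
    exact (mul_nonneg_iff_of_pos_right (real_inner_self_pos.2 hu0)).1 h1
  -- the group theoretic inequality on each piece
  have hkey : ∀ α ∈ hfin.toFinset, Real.sqrt (Module.finrank ℝ (N α))
      ≤ (Module.finrank ℝ (N α) : ℝ) * ((1 / 4) * ∑ i, α (some i)) := by
    intro α hα
    have hne : N α ≠ ⊥ := by simpa using hα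
    have hd : 0 < Module.finrank ℝ (N α) := by
      rw [Module.finrank_pos_iff]
      exact (Submodule.nontrivial_iff_ne_bot).2 hne
    refine avg_ge (fun i => resHom (phi i) (N α) (hinv α i)) ?_ ?_ hd (fun i => α (some i)) ?_
    · intro i g u v
      exact horth i g u v
    · intro i j hij g h
      ext u
      have := LinearMap.congr_fun (hcomm i j hij g h).eq (u : E)
      simpa [resHom_apply] using this
    · intro i
      ext u
      have h1 := hNk α u i u.2
      have h2 : ((kap (resHom (phi i) (N α) (hinv α i)) u : N α) : E) = kap (phi i) (u : E) := by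
        simp only [kap, LinearMap.smul_apply, LinearMap.sum_apply, Submodule.coe_smul,
          AddSubmonoidClass.coe_finsetSum, resHom_apply]
      rw [h2, h1]
      rfl
  -- conclusion
  rw [hKK]
  have hsum : (1 / 4) * ∑ i, LinearMap.trace ℝ E (K * kap (phi i))
      = ∑ α ∈ hfin.toFinset, α none * ((Module.finrank ℝ (N α) : ℝ) * ((1 / 4) * ∑ i, α (some i))) := by
    rw [Finset.sum_congr rfl (fun i _ => hKkap i), Finset.sum_comm, Finset.mul_sum]
    refine Finset.sum_congr rfl fun α _ => ?_
    simp only [Finset.mul_sum]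
    refine Finset.sum_congr rfl fun i _ => ?_
    ring
  rw [hsum]
  have h9 : ∑ α ∈ hfin.toFinset, α none * Real.sqrt (Module.finrank ℝ (N α))
      ≤ ∑ α ∈ hfin.toFinset, α none * ((Module.finrank ℝ (N α) : ℝ) * ((1 / 4) * ∑ i, α (some i))) :=
    Finset.sum_le_sum fun α hα => mul_le_mul_of_nonneg_left (hkey α hα) (hKα α hα)
  have h10 : 0 ≤ ∑ α ∈ hfin.toFinset, α none * Real.sqrt (Module.finrank ℝ (N α)) :=
    Finset.sum_nonneg fun α hα => mul_nonneg (hKα α hα) (Real.sqrt_nonneg _)
  refine ⟨h10.trans h9, ?_⟩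
  calc ∑ α ∈ hfin.toFinset, α none ^ 2 * (Module.finrank ℝ (N α) : ℝ)
      = ∑ α ∈ hfin.toFinset, (α none * Real.sqrt (Module.finrank ℝ (N α))) ^ 2 := by
        refine Finset.sum_congr rfl fun α _ => ?_
        rw [mul_pow, Real.sq_sqrt (Nat.cast_nonneg _)]
    _ ≤ (∑ α ∈ hfin.toFinset, α none * Real.sqrt (Module.finrank ℝ (N α))) ^ 2 :=
        Finset.sum_sq_le_sq_sum_of_nonneg fun α hα => mul_nonneg (hKα α hα) (Real.sqrt_nonneg _)
    _ ≤ _ := pow_le_pow_left₀ h10 h9 2

theorem trace_sq_le {G : Fin 4 → Type*} [∀ i, Group (G i)] [∀ i, Fintype (G i)]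
    (phi : ∀ i, G i →* Module.End ℝ E)
    (horth : ∀ i g u v, ⟪phi i g u, phi i g v⟫_ℝ = ⟪u, v⟫_ℝ)
    (hcomm : ∀ i j, i ≠ j → ∀ g h, Commute (phi i g) (phi j h))
    (K : Module.End ℝ E) (hKs : LinearMap.IsSymmetric K) (hKpos : ∀ u, 0 ≤ ⟪u, K u⟫_ℝ)
    (hKc : ∀ i g, Commute K (phi i g)) :
    LinearMap.trace ℝ E (K * K)
      ≤ ((1 / 4) * ∑ i, LinearMap.trace ℝ E (K * kap (phi i))) ^ 2 :=
  (trace_sq_le_and phi horth hcomm K hKs hKpos hKc).2

end Pool.Agent.Helper25.IP
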