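import Mathlib
import Pool.Agent.Helper91.IP.Defs
import Pool.Agent.Helper25.IP.TraceSq

/-! Transport of the trace inequality to matrices on permutations (IP-E8). -/

set_option linter.unusedSectionVars false

namespace Pool.Agent.Helper25.IP

open Finset Equiv Matrix Pool.Agent.Helper91.IP
open scoped InnerProductSpace

section op
variable {ι : Type} [Fintype ι] [DecidableEq ι]

/-- a matrix as an operator on Euclidean space -/
noncomputable def opM (M : Matrix ι ι ℝ) : Module.End ℝ (EuclideanSpace ℝ ι) where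
  toFun v := WithLp.toLp 2 (M *ᵥ (fun s => v s))
  map_add' u v := by
    ext s
    have : (fun s => (u + v) s) = (fun s => u s) + (fun s => v s) := rfl
    simp only [this, Matrix.mulVec_add]
    rfl
  map_smul' c v := by
    ext s
    have : (fun s => (c • v) s) = c • (fun s => v s) := rfl
    simp only [this, Matrix.mulVec_smul]
    rfl

omit [DecidableEq ι] in
theorem opM_apply (M : Matrix ι ι ℝ) (v : EuclideanSpace ℝ ι) (s : ι) :
    opM M v s = (M *ᵥ (fun s => v s)) s := rfl

theorem opM_mul (M N : Matrix ι ι ℝ) : opM (M * N) = opM M * opM N := by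
  ext v s
  rw [opM_apply, Module.End.mul_apply, opM_apply, ← Matrix.mulVec_mulVec]
  rfl

theorem opM_one : opM (1 : Matrix ι ι ℝ) = 1 := by
  ext v s
  rw [opM_apply, Matrix.one_mulVec]
  rfl

theorem opM_add (M N : Matrix ι ι ℝ) : opM (M + N) = opM M + opM N := by
  ext v s
  rw [opM_apply, Matrix.add_mulVec]
  rfl

theorem opM_smul (c : ℝ) (M : Matrix ι ι ℝ) : opM (c • M) = c • opM M := by
  ext v s
  rw [opM_apply, Matrix.smul_mulVec]
  rfl

theorem opM_zero : opM (0 : Matrix ι ι ℝ) = 0 := by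
  ext v s
  rw [opM_apply, Matrix.zero_mulVec]
  rfl

theorem opM_sum {κ : Type*} (A : Finset κ) (M : κ → Matrix ι ι ℝ) :
    opM (∑ a ∈ A, M a) = ∑ a ∈ A, opM (M a) := by
  classical
  induction A using Finset.induction_on with
  | empty => simp [opM_zero]
  | insert a A ha ih => rw [Finset.sum_insert ha, Finset.sum_insert ha, opM_add, ih]

omit [DecidableEq ι] in
theorem inner_eu (u v : EuclideanSpace ℝ ι) : ⟪u, v⟫_ℝ = ∑ s, u s * v s := by
  rw [PiLp.inner_apply]
  refine Finset.sum_congr rfl fun s _ => ?_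
  simp [mul_comm]

theorem opM_trace (M : Matrix ι ι ℝ) : LinearMap.trace ℝ _ (opM M) = Matrix.trace M := by
  rw [LinearMap.trace_eq_sum_inner _ (EuclideanSpace.basisFun ι ℝ)]
  unfold Matrix.trace
  refine Finset.sum_congr rfl fun s _ => ?_
  rw [EuclideanSpace.basisFun_apply, EuclideanSpace.inner_single_left]
  simp only [map_one, one_mul, opM_apply]
  have : (fun s' => (EuclideanSpace.single s (1 : ℝ) : EuclideanSpace ℝ ι) s') = Pi.single s 1 := by
    funext s'
    simp [Pi.single_apply]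
  rw [this, Matrix.mulVec_single_one]
  rfl

theorem opM_symm {M : Matrix ι ι ℝ} (hM : M.IsSymm) : LinearMap.IsSymmetric (opM M) := by
  intro u v
  rw [inner_eu, inner_eu]
  simp only [opM_apply]
  have h1 := Matrix.dotProduct_mulVec (fun s => u s) M (fun s => v s)
  rw [← Matrix.mulVec_transpose, hM.eq] at h1
  exact h1.symm

end op

variable {V : Type} [Fintype V] [DecidableEq V]

theorem Rm_mulVec (g : Perm V) (f : Perm V → ℝ) (s : Perm V) : (Rm g *ᵥ f) s = f (s * g) := by
  simp [Rm, Matrix.mulVec, dotProduct]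

theorem Rm_mul (g h : Perm V) : Rm g * Rm h = Rm (g * h) := by
  ext s s'
  rw [Matrix.mul_apply, Finset.sum_eq_single (s * g)]
  · simp [Rm, mul_assoc]
  · intro b _ hb
    simp [Rm, hb]
  · intro h; exact absurd (Finset.mem_univ _) h

theorem Rm_one : Rm (1 : Perm V) = 1 := by
  ext s s'
  simp [Rm, Matrix.one_apply, eq_comm]

/-- right translations -/
noncomputable def rhoR (V : Type) [Fintype V] [DecidableEq V] :
    Perm V →* Module.End ℝ (EuclideanSpace ℝ (Perm V)) where
  toFun g := opM (Rm g)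
  map_one' := by rw [Rm_one, opM_one]
  map_mul' g h := by rw [← Rm_mul, opM_mul]

theorem rhoR_orth (g : Perm V) (u v : EuclideanSpace ℝ (Perm V)) :
    ⟪rhoR V g u, rhoR V g v⟫_ℝ = ⟪u, v⟫_ℝ := by
  rw [inner_eu, inner_eu]
  have : ∀ (w : EuclideanSpace ℝ (Perm V)) s, rhoR V g w s = w (s * g) := fun w s =>
    Rm_mulVec g (fun s => w s) s
  simp only [this]
  exact Equiv.sum_comp (Equiv.mulRight g) (fun s => u s * v s)

/-- the subgroup of the permutations fixing `S` pointwise -/
def fixG (S : Finset V) : Subgroup (Perm V) where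
  carrier := {g | ∀ i ∈ S, g i = i}
  mul_mem' := fun {a b} ha hb i hi => by
    rw [Perm.mul_apply, hb i hi, ha i hi]
  one_mem' := fun i _ => rfl
  inv_mem' := fun {a} ha i hi => by
    rw [Perm.inv_eq_iff_eq]; exact (ha i hi).symm

instance (S : Finset V) : DecidablePred (· ∈ fixG S) := fun g =>
  inferInstanceAs (Decidable (∀ i ∈ S, g i = i))

omit [Fintype V] [DecidableEq V] in
theorem mem_fixG (S : Finset V) (g : Perm V) : g ∈ fixG S ↔ ∀ i ∈ S, g i = i := Iff.rfl

theorem sum_fixG {M : Type*} [AddCommMonoid M] (S : Finset V) (F : Perm V → M) :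
    ∑ g : fixG S, F g = ∑ g ∈ fixS S, F g := by
  refine (Finset.sum_subtype (fixS S) (fun g => ?_) F).symm
  simp [fixS, mem_fixG]

theorem card_fixG (S : Finset V) : Fintype.card (fixG S) = (fixS S).card := by
  rw [Fintype.card_subtype]
  rfl

theorem kap_eq (S : Finset V) :
    kap ((rhoR V).comp (fixG S).subtype) = opM (Kap S) := by
  unfold kap Kap
  rw [opM_smul, opM_sum, card_fixG, ← sum_fixG S]
  congr 1
  refine Finset.sum_congr rfl fun a _ => ?_
  rw [opM_sum, ← sum_fixG S]
  rfl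

theorem mat_trace_sq (R : Fin 4 → Finset V) (hR : ∀ i j, i ≠ j → Disjoint (R i) (R j))
    (K : Matrix (Perm V) (Perm V) ℝ) (hK : K.IsSymm)
    (hpos : ∀ u : Perm V → ℝ, 0 ≤ u ⬝ᵥ (K *ᵥ u)) (hc : ∀ g, K * Rm g = Rm g * K) :
    0 ≤ (1 / 4) * ∑ i, trace (Kap (R i)ᶜ * K) ∧
    trace (K * K) ≤ ((1 / 4) * ∑ i, trace (Kap (R i)ᶜ * K)) ^ 2 := by
  have h := trace_sq_le_and (G := fun i : Fin 4 => fixG (R i)ᶜ)
    (fun i => (rhoR V).comp (fixG (R i)ᶜ).subtype)
    (fun i g u v => rhoR_orth (g : Perm V) u v) ?_ (opM K) (opM_symm hK) ?_ ?_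
  · rw [← opM_mul, opM_trace] at h
    have e : ∀ i, LinearMap.trace ℝ (EuclideanSpace ℝ (Perm V))
        (opM K * kap ((rhoR V).comp (fixG (R i)ᶜ).subtype)) = trace (Kap (R i)ᶜ * K) := by
      intro i
      rw [kap_eq, ← opM_mul, opM_trace, Matrix.trace_mul_comm]
    rw [Finset.sum_congr rfl (fun i _ => e i)] at h
    exact h
  · intro i j hij g h
    have hgh : (g : Perm V) * (h : Perm V) = (h : Perm V) * (g : Perm V) := by
      have hg := (mem_fixG _ _).1 g.2
      have hh := (mem_fixG _ _).1 h.2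
      have hd : Perm.Disjoint (g : Perm V) (h : Perm V) := by
        intro x
        by_cases hx : x ∈ R i
        · right
          refine hh x ?_
          rw [Finset.mem_compl]
          exact fun hx' => (Finset.disjoint_left.1 (hR i j hij)) hx hx'
        · left
          exact hg x (Finset.mem_compl.2 hx)
      exact hd.commute.eq
    show _ * _ = _ * _
    have e1 : ((rhoR V).comp (fixG (R i)ᶜ).subtype) g = rhoR V (g : Perm V) := rfl
    have e2 : ((rhoR V).comp (fixG (R j)ᶜ).subtype) h = rhoR V (h : Perm V) := rfl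
    rw [e1, e2, ← map_mul, ← map_mul, hgh]
  · intro u
    rw [inner_eu]
    exact hpos (fun s => u s)
  · intro i g
    show _ * _ = _ * _
    have e1 : ((rhoR V).comp (fixG (R i)ᶜ).subtype) g = opM (Rm (g : Perm V)) := rfl
    rw [e1, ← opM_mul, ← opM_mul, hc]

/-- IP-E8: the representation lemma -/
theorem rep_lemma (R : Fin 4 → Finset V) (hR : ∀ i j, i ≠ j → Disjoint (R i) (R j))
    (E : Matrix (Perm V) (Perm V) ℝ) (hE : E.IsSymm) (hEE : E * E = E)
    (hc : ∀ g, E * Rm g = Rm g * E) :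
    4 * Real.sqrt (trace E) ≤ ∑ i, trace (Kap (R i)ᶜ * E) := by
  have hq : ∀ u : Perm V → ℝ, u ⬝ᵥ (E *ᵥ u) = (E *ᵥ u) ⬝ᵥ (E *ᵥ u) := by
    intro u
    rw [Matrix.dotProduct_mulVec (E *ᵥ u) E u, ← Matrix.mulVec_transpose, hE.eq,
      Matrix.mulVec_mulVec, hEE, dotProduct_comm]
  have h := mat_trace_sq R hR E hE (fun u => by
    rw [hq]
    exact Finset.sum_nonneg fun s _ => mul_self_nonneg _) hc
  rw [hEE] at h
  obtain ⟨hnn, h⟩ := h
  have := Real.sqrt_le_sqrt h
  rw [Real.sqrt_sq hnn] at this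
  linarith

end Pool.Agent.Helper25.IP
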